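import Pool.Agent.Helper28.Cov.Gauss

/-!
Covariogram problem, Module B (helper28): Bessel inequality for the Fourier integral
(by Gaussian regularisation).
-/

open MeasureTheory Set Filter Topology

namespace Pool.Agent.Helper28.Cov

open Pool.Agent.Helper77.Cov

section
variable {d : ℕ}

/-- Fourier kernel. -/
noncomputable def ker (lam : ℝ) (s x : V d) : ℂ := Complex.exp (-Complex.I * lam * (inner ℝ s x : ℝ))

theorem continuous_ker (lam : ℝ) : Continuous (fun p : V d × V d => ker lam p.1 p.2) := by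
  unfold ker
  have : Continuous (fun p : V d × V d => (inner ℝ p.1 p.2 : ℝ)) := continuous_fst.inner continuous_snd
  fun_prop

theorem norm_ker (lam : ℝ) (s x : V d) : ‖ker lam s x‖ = 1 := by
  unfold ker
  rw [Complex.norm_exp]; simp

theorem integrable_gauss_ofReal {b : ℝ} (hb : 0 < b) :
    Integrable (fun v : V d => (Real.exp (-(b / 2) * ‖v‖ ^ 2) : ℂ)) :=
  (integrable_gauss hb).ofReal

theorem gauss_ker {lam ε : ℝ} (hε : 0 < ε) (x y : V d) :
    ∫ s, ker lam s x * (starRingEnd ℂ) (ker lam s y) * (Real.exp (-(ε / 2) * ‖s‖ ^ 2) : ℂ) =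
      ((cst d ε)⁻¹ * Real.exp (-(lam ^ 2 / ε / 2) * ‖x - y‖ ^ 2) : ℝ) := by
  have h := integral_gauss_fourier hε (-(lam • (x - y)))
  have hc := cst_pos (d := d) hε
  have h1 : ∀ s : V d, ker lam s x * (starRingEnd ℂ) (ker lam s y) * (Real.exp (-(ε / 2) * ‖s‖ ^ 2) : ℂ) =
      Complex.exp (-((ε / 2 : ℝ) : ℂ) * ‖s‖ ^ 2 + Complex.I * inner ℝ (-(lam • (x - y))) s) := by
    intro s
    unfold ker
    rw [← Complex.exp_conj, ← Complex.exp_add, Complex.ofReal_exp, ← Complex.exp_add]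
    congr 1
    have e1 : inner ℝ (-(lam • (x - y))) s = -(lam * (inner ℝ s x - inner ℝ s y)) := by
      rw [inner_neg_left, real_inner_smul_left, inner_sub_left, real_inner_comm s x, real_inner_comm s y]
    rw [e1]
    simp only [map_mul, map_neg, Complex.conj_I, Complex.conj_ofReal]
    push_cast; ring
  simp_rw [h1]
  have h2 : ∫ v : V d, Complex.exp (-((ε / 2 : ℝ) : ℂ) * ‖v‖ ^ 2 + Complex.I * inner ℝ (-(lam • (x - y))) v) =
      ((cst d ε)⁻¹ : ℝ) * Complex.exp (-(‖-(lam • (x - y))‖ ^ 2 / (2 * ε) : ℝ)) := by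
    rw [← h, ← mul_assoc, ← Complex.ofReal_mul, inv_mul_cancel₀ hc.ne', Complex.ofReal_one, one_mul]
  rw [h2, norm_neg, norm_smul, mul_pow, Real.norm_eq_abs, sq_abs]
  rw [Complex.ofReal_mul, Complex.ofReal_exp]
  congr 2
  push_cast
  have : (ε : ℂ) ≠ 0 := by exact_mod_cast hε.ne'
  field_simp

theorem regularised {f : V d → ℂ} (hf : Integrable f) (hf2 : Integrable (fun x => ‖f x‖ ^ 2))
    {lam ε : ℝ} (hl : 0 < lam) (hε : 0 < ε) :
    ∫ s, Real.exp (-(ε / 2) * ‖s‖ ^ 2) * ‖(cst d lam : ℂ) * ∫ x, f x * ker lam s x‖ ^ 2 ≤ ∫ x, ‖f x‖ ^ 2 := by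
  have hc1 := cst_pos (d := d) hε
  have hc2 := cst_pos (d := d) hl
  have hle : 0 < lam ^ 2 / ε := by positivity
  have hc3 := cst_pos (d := d) hle
  set g : V d → ℝ := fun z => Real.exp (-(lam ^ 2 / ε / 2) * ‖z‖ ^ 2) with hg
  have hgint : Integrable g := integrable_gauss hle
  have hgI : cst d (lam ^ 2 / ε) * ∫ z, g z = 1 := integral_gauss hle
  set F : V d → ℂ := fun s => ∫ x, f x * ker lam s x with hF
  -- Fubini
  have hkc := continuous_ker (d := d) lam
  have hΦ : Integrable (fun z : V d × (V d × V d) => (ker lam z.1 z.2.1 * (starRingEnd ℂ) (ker lam z.1 z.2.2)) *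
      ((Real.exp (-(ε / 2) * ‖z.1‖ ^ 2) : ℂ) * (f z.2.1 * (starRingEnd ℂ) (f z.2.2)))) := by
    have h1 : Integrable (fun p : V d × V d => f p.1 * (starRingEnd ℂ) (f p.2)) (volume.prod volume) :=
      hf.mul_prod (Complex.conjLIE.integrable_comp_iff.mpr hf)
    have h2 : Integrable (fun z : V d × (V d × V d) => (Real.exp (-(ε / 2) * ‖z.1‖ ^ 2) : ℂ) *
      (f z.2.1 * (starRingEnd ℂ) (f z.2.2))) (volume.prod (volume.prod volume)) :=
      (integrable_gauss_ofReal hε).mul_prod h1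
    apply h2.bdd_mul (c := 1)
    · apply Continuous.aestronglyMeasurable
      have h3 : Continuous (fun z : V d × (V d × V d) => ker lam z.1 z.2.1) :=
        hkc.comp (continuous_fst.prodMk (continuous_fst.comp continuous_snd))
      have h4 : Continuous (fun z : V d × (V d × V d) => ker lam z.1 z.2.2) :=
        hkc.comp (continuous_fst.prodMk (continuous_snd.comp continuous_snd))
      exact h3.mul (Complex.continuous_conj.comp h4)
    · refine Eventually.of_forall fun z => ?_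
      rw [norm_mul, RCLike.norm_conj, norm_ker, norm_ker, mul_one]
  have hswap := integral_integral_swap (f := fun (s : V d) (p : V d × V d) =>
    (ker lam s p.1 * (starRingEnd ℂ) (ker lam s p.2)) *
      ((Real.exp (-(ε / 2) * ‖s‖ ^ 2) : ℂ) * (f p.1 * (starRingEnd ℂ) (f p.2)))) hΦ
  have hL : ∀ s : V d, ∫ p : V d × V d, (ker lam s p.1 * (starRingEnd ℂ) (ker lam s p.2)) *
      ((Real.exp (-(ε / 2) * ‖s‖ ^ 2) : ℂ) * (f p.1 * (starRingEnd ℂ) (f p.2))) =
      ((Real.exp (-(ε / 2) * ‖s‖ ^ 2) * ‖F s‖ ^ 2 : ℝ) : ℂ) := by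
    intro s
    have h1 : ∀ p : V d × V d, (ker lam s p.1 * (starRingEnd ℂ) (ker lam s p.2)) *
      ((Real.exp (-(ε / 2) * ‖s‖ ^ 2) : ℂ) * (f p.1 * (starRingEnd ℂ) (f p.2))) =
      (Real.exp (-(ε / 2) * ‖s‖ ^ 2) : ℂ) * ((f p.1 * ker lam s p.1) * (starRingEnd ℂ) (f p.2 * ker lam s p.2)) := by
      intro p
      rw [map_mul]; ring
    simp_rw [h1]
    rw [integral_const_mul]
    have h2 : ∫ p : V d × V d, (f p.1 * ker lam s p.1) * (starRingEnd ℂ) (f p.2 * ker lam s p.2) =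
        (∫ x, f x * ker lam s x) * ∫ y, (starRingEnd ℂ) (f y * ker lam s y) :=
      integral_prod_mul (μ := volume) (ν := volume) (fun x => f x * ker lam s x) (fun y => (starRingEnd ℂ) (f y * ker lam s y))
    rw [h2, integral_conj, Complex.mul_conj']
    push_cast; rfl
  have hR : ∀ p : V d × V d, ∫ s : V d, (ker lam s p.1 * (starRingEnd ℂ) (ker lam s p.2)) *
      ((Real.exp (-(ε / 2) * ‖s‖ ^ 2) : ℂ) * (f p.1 * (starRingEnd ℂ) (f p.2))) =
      (((cst d ε)⁻¹ * g (p.1 - p.2) : ℝ) : ℂ) * (f p.1 * (starRingEnd ℂ) (f p.2)) := by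
    intro p
    rw [hg]
    simp only
    rw [← gauss_ker (lam := lam) hε p.1 p.2, ← integral_mul_const]
    apply integral_congr_ae
    refine Eventually.of_forall fun s => ?_
    simp only
    ring
  simp_rw [hL, hR] at hswap
  rw [integral_complex_ofReal] at hswap
  -- the bound of the right-hand side
  have hG1 : Integrable (fun p : V d × V d => ‖f p.1‖ ^ 2 * g (p.1 - p.2)) (volume.prod volume) := by
    rw [integrable_prod_iff]
    · constructor
      · refine Eventually.of_forall fun x => ?_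
        exact (hgint.comp_sub_left x).const_mul (‖f x‖ ^ 2)
      · have : ∀ x : V d, ∫ y, ‖‖f x‖ ^ 2 * g (x - y)‖ = ‖f x‖ ^ 2 * ∫ z, g z := by
          intro x
          rw [← integral_sub_left_eq_self g volume x, ← integral_const_mul]
          apply integral_congr_ae
          refine Eventually.of_forall fun y => ?_
          simp only
          rw [Real.norm_of_nonneg]
          exact mul_nonneg (by positivity) (Real.exp_pos _).le
        simp_rw [this]
        exact hf2.mul_const _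
    · apply AEStronglyMeasurable.mul
      · exact hf2.aestronglyMeasurable.comp_fst
      · apply Continuous.aestronglyMeasurable
        rw [hg]; fun_prop
  have hG1v : ∫ p : V d × V d, ‖f p.1‖ ^ 2 * g (p.1 - p.2) = (∫ x, ‖f x‖ ^ 2) * ∫ z, g z := by
    change ∫ p, _ ∂(volume.prod volume) = _
    rw [integral_prod _ hG1]
    rw [← integral_mul_const]
    congr 1
    ext x
    simp only
    rw [integral_const_mul, integral_sub_left_eq_self g volume x]
  have hG2 : Integrable (fun p : V d × V d => ‖f p.2‖ ^ 2 * g (p.1 - p.2)) (volume.prod volume) := by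
    have := hG1.swap
    refine this.congr (Eventually.of_forall fun p => ?_)
    simp only [Function.comp_apply, Prod.fst_swap, Prod.snd_swap]
    rw [hg]
    simp only
    rw [norm_sub_rev]
  have hG2v : ∫ p : V d × V d, ‖f p.2‖ ^ 2 * g (p.1 - p.2) = (∫ x, ‖f x‖ ^ 2) * ∫ z, g z := by
    change ∫ p, _ ∂(volume.prod volume) = _
    rw [integral_prod_symm _ hG2, ← integral_mul_const]
    congr 1
    ext y
    simp only
    rw [integral_const_mul, integral_sub_right_eq_self g y]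
  have hbound : ‖∫ p : V d × V d, (((cst d ε)⁻¹ * g (p.1 - p.2) : ℝ) : ℂ) * (f p.1 * (starRingEnd ℂ) (f p.2))‖ ≤
      (cst d ε)⁻¹ * ((∫ x, ‖f x‖ ^ 2) * ∫ z, g z) := by
    calc _ ≤ ∫ p : V d × V d, (cst d ε)⁻¹ * ((‖f p.1‖ ^ 2 * g (p.1 - p.2) + ‖f p.2‖ ^ 2 * g (p.1 - p.2)) / 2) := by
          apply norm_integral_le_of_norm_le
          · exact ((hG1.add hG2).div_const 2).const_mul _
          · refine Eventually.of_forall fun p => ?_
            have hgp : 0 ≤ g (p.1 - p.2) := (Real.exp_pos _).le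
            rw [norm_mul, norm_mul, RCLike.norm_conj, Complex.norm_of_nonneg (by positivity), mul_assoc]
            apply mul_le_mul_of_nonneg_left _ (by positivity)
            nlinarith [mul_nonneg hgp (sq_nonneg (‖f p.1‖ - ‖f p.2‖))]
      _ = _ := by
        rw [integral_const_mul, integral_div]
        have : ∫ p : V d × V d, (‖f p.1‖ ^ 2 * g (p.1 - p.2) + ‖f p.2‖ ^ 2 * g (p.1 - p.2)) =
            (∫ x, ‖f x‖ ^ 2) * (∫ z, g z) + (∫ x, ‖f x‖ ^ 2) * ∫ z, g z := by
          rw [← hG1v]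
          nth_rw 2 [hG1v]
          rw [← hG2v]
          exact integral_add hG1 hG2
        rw [this]; ring
  rw [← hswap] at hbound
  have h5 : 0 ≤ ∫ s : V d, Real.exp (-(ε / 2) * ‖s‖ ^ 2) * ‖F s‖ ^ 2 :=
    integral_nonneg fun s => by positivity
  have h6 : ∫ s : V d, Real.exp (-(ε / 2) * ‖s‖ ^ 2) * ‖F s‖ ^ 2 ≤ (cst d ε)⁻¹ * ((∫ x, ‖f x‖ ^ 2) * ∫ z, g z) := by
    have : ‖((∫ s : V d, Real.exp (-(ε / 2) * ‖s‖ ^ 2) * ‖F s‖ ^ 2 : ℝ) : ℂ)‖ =
        ∫ s : V d, Real.exp (-(ε / 2) * ‖s‖ ^ 2) * ‖F s‖ ^ 2 := by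
      rw [Complex.norm_of_nonneg h5]
    rw [← this]
    exact hbound
  have h7 : ∀ s : V d, Real.exp (-(ε / 2) * ‖s‖ ^ 2) * ‖(cst d lam : ℂ) * ∫ x, f x * ker lam s x‖ ^ 2 =
      (cst d lam * cst d lam) * (Real.exp (-(ε / 2) * ‖s‖ ^ 2) * ‖F s‖ ^ 2) := by
    intro s
    rw [norm_mul, Complex.norm_of_nonneg hc2.le]; ring
  simp_rw [h7]
  rw [integral_const_mul]
  have h8 : cst d lam * cst d lam = cst d ε * cst d (lam ^ 2 / ε) := by
    have := cst_sq_div (d := d) (b := lam) (c := ε / lam) hl (by positivity)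
    rw [this]
    congr 2
    · field_simp
    · field_simp
  rw [h8]
  calc cst d ε * cst d (lam ^ 2 / ε) * ∫ s : V d, Real.exp (-(ε / 2) * ‖s‖ ^ 2) * ‖F s‖ ^ 2
      ≤ cst d ε * cst d (lam ^ 2 / ε) * ((cst d ε)⁻¹ * ((∫ x, ‖f x‖ ^ 2) * ∫ z, g z)) := by gcongr
    _ = (cst d ε * (cst d ε)⁻¹) * (∫ x, ‖f x‖ ^ 2) * (cst d (lam ^ 2 / ε) * ∫ z, g z) := by ring
    _ = _ := by rw [hgI, mul_inv_cancel₀ hc1.ne']; ring

/-- Bessel inequality (half of Plancherel's theorem). -/
theorem bessel {f : V d → ℂ} (hf : Integrable f) (hf2 : Integrable (fun x => ‖f x‖ ^ 2))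
    {lam : ℝ} (hl : 0 < lam) :
    ∫⁻ s, ‖(cst d lam : ℂ) * ∫ x, f x * ker lam s x‖ₑ ^ 2 ≤ ENNReal.ofReal (∫ x, ‖f x‖ ^ 2) := by
  set G : V d → ℂ := fun s => (cst d lam : ℂ) * ∫ x, f x * ker lam s x with hG
  have hGm : AEStronglyMeasurable G := by
    apply AEStronglyMeasurable.const_mul
    have h1 : AEStronglyMeasurable (fun p : V d × V d => f p.2 * ker lam p.1 p.2) (volume.prod volume) := by
      apply AEStronglyMeasurable.mul
      · exact hf.aestronglyMeasurable.comp_snd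
      · exact (continuous_ker lam).aestronglyMeasurable
    exact h1.integral_prod_right'
  have hGb : ∀ s, ‖G s‖ ≤ cst d lam * ∫ x, ‖f x‖ := by
    intro s
    rw [hG]
    simp only
    rw [norm_mul, Complex.norm_of_nonneg (cst_pos hl).le]
    apply mul_le_mul_of_nonneg_left _ (cst_pos hl).le
    apply norm_integral_le_of_norm_le hf.norm
    refine Eventually.of_forall fun x => ?_
    rw [norm_mul, norm_ker, mul_one]
  have hε : ∀ n : ℕ, (0 : ℝ) < 1 / ((n : ℝ) + 1) := fun n => by positivity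
  have h1 : ∀ n : ℕ, ∫⁻ s, ENNReal.ofReal (Real.exp (-((1 / ((n : ℝ) + 1)) / 2) * ‖s‖ ^ 2) * ‖G s‖ ^ 2) ≤
      ENNReal.ofReal (∫ x, ‖f x‖ ^ 2) := by
    intro n
    rw [← ofReal_integral_eq_lintegral_ofReal]
    · exact ENNReal.ofReal_le_ofReal (regularised hf hf2 hl (hε n))
    · have hb : ∀ s, ‖‖G s‖ ^ 2‖ ≤ (cst d lam * ∫ x, ‖f x‖) ^ 2 := by
        intro s
        rw [norm_pow, norm_norm]
        exact pow_le_pow_left₀ (norm_nonneg _) (hGb s) 2
      exact (integrable_gauss (hε n)).mul_bdd (c := (cst d lam * ∫ x, ‖f x‖) ^ 2) (hGm.norm.pow 2)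
        (Eventually.of_forall hb)
    · exact Eventually.of_forall fun s => by positivity
  have h2 : ∀ s : V d, Tendsto (fun n : ℕ => ENNReal.ofReal (Real.exp (-((1 / ((n : ℝ) + 1)) / 2) * ‖s‖ ^ 2) * ‖G s‖ ^ 2))
      atTop (𝓝 (‖G s‖ₑ ^ 2)) := by
    intro s
    have h3 : ‖G s‖ₑ ^ 2 = ENNReal.ofReal (‖G s‖ ^ 2) := by
      rw [ENNReal.ofReal_pow (norm_nonneg _), ofReal_norm]
    rw [h3]
    apply (ENNReal.continuous_ofReal.tendsto _).comp
    have h4 : Tendsto (fun n : ℕ => Real.exp (-((1 / ((n : ℝ) + 1)) / 2) * ‖s‖ ^ 2)) atTop (𝓝 1) := by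
      have h5 : Tendsto (fun n : ℕ => -((1 / ((n : ℝ) + 1)) / 2) * ‖s‖ ^ 2) atTop (𝓝 0) := by
        have h6 := (tendsto_one_div_add_atTop_nhds_zero_nat (𝕜 := ℝ))
        have h7 := ((h6.div_const 2).neg).mul_const (‖s‖ ^ 2)
        simpa using h7
      have := (Real.continuous_exp.tendsto 0).comp h5
      rw [Real.exp_zero] at this
      exact this
    simpa using h4.mul_const (‖G s‖ ^ 2)
  calc ∫⁻ s, ‖G s‖ₑ ^ 2 = ∫⁻ s, Filter.liminf (fun n : ℕ => ENNReal.ofReal (Real.exp (-((1 / ((n : ℝ) + 1)) / 2) * ‖s‖ ^ 2) * ‖G s‖ ^ 2)) atTop := by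
        congr 1
        ext s
        exact (h2 s).liminf_eq.symm
    _ ≤ Filter.liminf (fun n : ℕ => ∫⁻ s, ENNReal.ofReal (Real.exp (-((1 / ((n : ℝ) + 1)) / 2) * ‖s‖ ^ 2) * ‖G s‖ ^ 2)) atTop := by
        apply lintegral_liminf_le'
        intro n
        apply AEMeasurable.ennreal_ofReal
        apply AEMeasurable.mul
        · apply Continuous.aemeasurable
          fun_prop
        · exact (hGm.norm.pow 2).aemeasurable
    _ ≤ ENNReal.ofReal (∫ x, ‖f x‖ ^ 2) := by
        apply Filter.liminf_le_of_le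
        · exact ⟨0, Eventually.of_forall fun n => bot_le⟩
        · intro b hb
          obtain ⟨n, hn⟩ := hb.exists
          exact hn.trans (h1 n)

end

end Pool.Agent.Helper28.Cov
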