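import Pool.Agent.Helper28.Cov.Gauss

/-!
Covariogram problem, Module B (helper28): graph functions of a convex body.
-/

open MeasureTheory Set Filter Topology
open scoped Pointwise

namespace Pool.Agent.Helper28.Cov

open Pool.Agent.Helper77.Cov

/-- Projection of the body. -/
def Kp {d : ℕ} (K : Set (V d × ℝ)) : Set (V d) := Prod.fst '' K

/-- Upper boundary function. -/
noncomputable def topf {d : ℕ} (K : Set (V d × ℝ)) (x : V d) : ℝ := sSup {t : ℝ | (x, t) ∈ K}

/-- Lower boundary function. -/
noncomputable def botf {d : ℕ} (K : Set (V d × ℝ)) (x : V d) : ℝ := -topf (-K) (-x)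

section
variable {d : ℕ} {K : Set (V d × ℝ)}

theorem isBody_neg (hK : IsBody K) : IsBody (-K) := by
  refine ⟨hK.compact.neg, hK.convex.neg, ?_⟩
  obtain ⟨x, hx⟩ := hK.interior_nonempty
  refine ⟨-x, ?_⟩
  have h := (Homeomorph.neg (V d × ℝ)).preimage_interior K
  have h2 : (Homeomorph.neg (V d × ℝ)) ⁻¹' K = -K := rfl
  rw [h2] at h
  rw [← h]
  simpa using hx

theorem nonempty_of_isBody (hK : IsBody K) : K.Nonempty :=
  hK.interior_nonempty.mono interior_subset

theorem isCompact_Kp (hK : IsCompact K) : IsCompact (Kp K) := hK.image continuous_fst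

theorem convex_Kp (hK : Convex ℝ K) : Convex ℝ (Kp K) :=
  hK.linear_image (LinearMap.fst ℝ (V d) ℝ)

theorem bddAbove_lin (hK : IsCompact K) (u : V d × ℝ) :
    BddAbove ((fun p : V d × ℝ => inner ℝ u.1 p.1 + u.2 * p.2) '' K) :=
  (hK.image (by fun_prop)).bddAbove

theorem le_Hup (hK : IsCompact K) {x : V d} {t : ℝ} (h : (x, t) ∈ K) (s : V d) :
    inner ℝ s x + t ≤ Hup K s := by
  have := le_csSup (bddAbove_lin hK (s, 1)) (mem_image_of_mem _ h)
  simpa [Hup, suppP] using this

theorem exists_Hup (hK : IsBody K) (s : V d) :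
    ∃ p ∈ K, inner ℝ s p.1 + p.2 = Hup K s := by
  obtain ⟨p, hp, h⟩ := hK.compact.exists_sSup_image_eq (nonempty_of_isBody hK)
    (f := fun p : V d × ℝ => inner ℝ s p.1 + 1 * p.2) (by fun_prop)
  refine ⟨p, hp, ?_⟩
  simp only [Hup, suppP]
  rw [h]; simp

theorem fiber_compact (hK : IsCompact K) (x : V d) : IsCompact {t : ℝ | (x, t) ∈ K} := by
  have h1 : {t : ℝ | (x, t) ∈ K} = Prod.snd '' (K ∩ (Prod.fst ⁻¹' {x})) := by
    ext t
    constructor
    · intro h
      exact ⟨(x, t), ⟨h, rfl⟩, rfl⟩
    · rintro ⟨⟨a, b⟩, ⟨h1, h2⟩, h3⟩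
      simp only [mem_preimage, mem_singleton_iff] at h2
      simp only at h3
      subst h2; subst h3
      exact h1
  rw [h1]
  exact (hK.inter_right (isClosed_singleton.preimage continuous_fst)).image continuous_snd

theorem le_topf (hK : IsCompact K) {x : V d} {t : ℝ} (h : (x, t) ∈ K) : t ≤ topf K x :=
  le_csSup (fiber_compact hK x).bddAbove h

theorem mem_topf (hK : IsCompact K) {x : V d} (hx : x ∈ Kp K) : (x, topf K x) ∈ K := by
  obtain ⟨p, hp, rfl⟩ := hx
  exact (fiber_compact hK p.1).sSup_mem ⟨p.2, hp⟩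

theorem mem_Kp_neg {x : V d} : -x ∈ Kp (-K) ↔ x ∈ Kp K := by
  constructor
  · rintro ⟨p, hp, h⟩
    refine ⟨-p, hp, ?_⟩
    simp [h]
  · rintro ⟨p, hp, h⟩
    refine ⟨-p, by simpa using hp, ?_⟩
    simp [h]

theorem mem_botf (hK : IsCompact K) {x : V d} (hx : x ∈ Kp K) : (x, botf K x) ∈ K := by
  have := mem_topf hK.neg (mem_Kp_neg.mpr hx)
  rw [Set.mem_neg] at this
  simpa [botf] using this

theorem botf_le (hK : IsCompact K) {x : V d} {t : ℝ} (h : (x, t) ∈ K) : botf K x ≤ t := by
  have : (-x, -t) ∈ (-K : Set (V d × ℝ)) := by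
    rw [Set.mem_neg]; simpa using h
  have := le_topf hK.neg this
  unfold botf; linarith

theorem fiber_eq (hK : IsBody K) {x : V d} (hx : x ∈ Kp K) (t : ℝ) :
    (x, t) ∈ K ↔ t ∈ Icc (botf K x) (topf K x) := by
  constructor
  · intro h
    exact ⟨botf_le hK.compact h, le_topf hK.compact h⟩
  · intro h
    have h1 := mem_botf hK.compact hx
    have h2 := mem_topf hK.compact hx
    have hseg : t ∈ segment ℝ (botf K x) (topf K x) := by
      rw [segment_eq_Icc (h.1.trans h.2)]; exact h
    obtain ⟨a, b, ha, hb, hab, rfl⟩ := hseg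
    have := hK.convex h1 h2 ha hb hab
    have e : a • (x, botf K x) + b • (x, topf K x) = (x, a • botf K x + b • topf K x) := by
      ext
      · simp [← add_smul, hab]
      · simp
    rwa [e] at this

theorem measurable_topf (hK : IsCompact K) : Measurable (topf K) := by
  apply measurable_of_Ici
  intro c
  have h : topf K ⁻¹' Ici c = (Prod.fst '' (K ∩ {p | c ≤ p.2})) ∪ ((Kp K)ᶜ ∩ {x | c ≤ 0}) := by
    ext x
    simp only [mem_preimage, mem_Ici, mem_union, mem_inter_iff, mem_compl_iff]
    by_cases hx : x ∈ Kp K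
    · constructor
      · intro h
        left
        exact ⟨(x, topf K x), ⟨mem_topf hK hx, h⟩, rfl⟩
      · rintro (⟨p, ⟨hp, hc⟩, rfl⟩ | h)
        · exact le_trans hc (le_topf hK hp)
        · exact absurd hx h.1
    · have h0 : topf K x = 0 := by
        unfold topf
        have : {t : ℝ | (x, t) ∈ K} = ∅ := by
          ext t
          simp only [Set.mem_ofPred_eq, mem_empty_iff_false, iff_false]
          intro h
          exact hx ⟨(x, t), h, rfl⟩
        rw [this, Real.sSup_empty]
      rw [h0]
      constructor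
      · intro h
        right
        exact ⟨hx, h⟩
      · rintro (⟨p, ⟨hp, hc⟩, rfl⟩ | h)
        · exact absurd ⟨p, hp, rfl⟩ hx
        · exact h.2
  rw [h]
  apply MeasurableSet.union
  · apply IsCompact.measurableSet
    apply IsCompact.image _ continuous_fst
    exact hK.inter_right (isClosed_le continuous_const continuous_snd)
  · apply MeasurableSet.inter
    · exact (isCompact_Kp hK).measurableSet.compl
    · exact MeasurableSet.const _

theorem measurable_botf (hK : IsCompact K) : Measurable (botf K) :=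
  ((measurable_topf hK.neg).comp measurable_neg).neg

/-- Integral over an interval of the oscillating exponential. -/
theorem integral_Icc_exp {lam : ℝ} (hl : lam ≠ 0) (c : ℝ) {a b : ℝ} (hab : a ≤ b) :
    ∫ t in Icc a b, Complex.exp (-Complex.I * lam * ((c + t : ℝ) : ℂ)) =
      Complex.I / lam * (Complex.exp (-Complex.I * lam * ((c + b : ℝ) : ℂ)) -
        Complex.exp (-Complex.I * lam * ((c + a : ℝ) : ℂ))) := by
  rw [integral_Icc_eq_integral_Ioc, ← intervalIntegral.integral_of_le hab]
  have hne : (-Complex.I * lam) ≠ 0 := by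
    apply mul_ne_zero (neg_ne_zero.mpr Complex.I_ne_zero)
    exact_mod_cast hl
  have h1 : ∀ t : ℝ, Complex.exp (-Complex.I * lam * ((c + t : ℝ) : ℂ)) =
      Complex.exp (-Complex.I * lam * c) * Complex.exp (-Complex.I * lam * (t : ℂ)) := by
    intro t
    rw [← Complex.exp_add]; congr 1; push_cast; ring
  simp_rw [h1]
  rw [intervalIntegral.integral_const_mul, integral_exp_mul_complex hne]
  have hI : (-Complex.I * (lam : ℂ))⁻¹ = Complex.I / lam := by
    have : (lam : ℂ) ≠ 0 := by exact_mod_cast hl
    field_simp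
    rw [Complex.I_sq]; 
  rw [div_eq_mul_inv, hI]
  ring

theorem fT_eq (hK : IsBody K) {lam : ℝ} (hl : lam ≠ 0) (s : V d) :
    fT K s lam = Complex.I / lam * ((∫ x in Kp K, Complex.exp (-Complex.I * lam * ((inner ℝ s x + topf K x : ℝ) : ℂ))) -
      ∫ x in Kp K, Complex.exp (-Complex.I * lam * ((inner ℝ s x + botf K x : ℝ) : ℂ))) := by
  have hKm : MeasurableSet K := hK.compact.measurableSet
  have hKpm : MeasurableSet (Kp K) := (isCompact_Kp hK.compact).measurableSet
  unfold fT
  set F : V d × ℝ → ℂ := fun p => Complex.exp (-Complex.I * lam * ((inner ℝ s p.1 + p.2 : ℝ) : ℂ)) with hF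
  have hFc : Continuous F := by fun_prop
  have hint : Integrable (K.indicator F) := by
    rw [integrable_indicator_iff hKm]
    exact hFc.continuousOn.integrableOn_compact hK.compact
  rw [← integral_indicator hKm]
  change ∫ p, K.indicator F p ∂(volume.prod volume) = _
  rw [integral_prod _ hint]
  have hx : ∀ x, ∫ t, K.indicator F (x, t) = (Kp K).indicator (fun x => Complex.I / lam *
      (Complex.exp (-Complex.I * lam * ((inner ℝ s x + topf K x : ℝ) : ℂ)) -
        Complex.exp (-Complex.I * lam * ((inner ℝ s x + botf K x : ℝ) : ℂ)))) x := by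
    intro x
    by_cases hx : x ∈ Kp K
    · rw [indicator_of_mem hx]
      rw [← integral_Icc_exp hl _ (botf_le hK.compact (mem_topf hK.compact hx))]
      rw [← integral_indicator measurableSet_Icc]
      congr 1
      ext t
      by_cases ht : (x, t) ∈ K
      · rw [indicator_of_mem ht, indicator_of_mem ((fiber_eq hK hx t).mp ht)]
      · rw [indicator_of_notMem ht, indicator_of_notMem (fun h => ht ((fiber_eq hK hx t).mpr h))]
    · rw [indicator_of_notMem hx]
      have : ∀ t, K.indicator F (x, t) = 0 := fun t =>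
        indicator_of_notMem (fun h => hx ⟨(x, t), h, rfl⟩) _
      simp [this]
  simp_rw [hx]
  rw [integral_indicator hKpm, integral_const_mul, integral_sub]
  · have hfin : volume (Kp K) < ⊤ := (isCompact_Kp hK.compact).measure_lt_top
    apply Measure.integrableOn_of_bounded (M := 1) hfin.ne
    · apply Measurable.aestronglyMeasurable
      have := measurable_topf hK.compact
      fun_prop
    · refine Eventually.of_forall fun x => ?_
      rw [Complex.norm_exp]; simp
  · have hfin : volume (Kp K) < ⊤ := (isCompact_Kp hK.compact).measure_lt_top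
    apply Measure.integrableOn_of_bounded (M := 1) hfin.ne
    · apply Measurable.aestronglyMeasurable
      have := measurable_botf hK.compact
      fun_prop
    · refine Eventually.of_forall fun x => ?_
      rw [Complex.norm_exp]; simp

/-- The renormalised oscillatory integral. -/
noncomputable def U (K : Set (V d × ℝ)) (lam : ℝ) (s : V d) : ℂ :=
  (cst d lam : ℂ) * ∫ x in Kp K, Complex.exp (-Complex.I * lam * ((inner ℝ s x + topf K x : ℝ) : ℂ))

theorem conj_U_neg (K : Set (V d × ℝ)) (lam : ℝ) (s : V d) :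
    (starRingEnd ℂ) (U (-K) lam s) =
      (cst d lam : ℂ) * ∫ x in Kp K, Complex.exp (-Complex.I * lam * ((inner ℝ s x + botf K x : ℝ) : ℂ)) := by
  unfold U
  rw [map_mul, Complex.conj_ofReal, ← integral_conj]
  congr 1
  have h1 : (Kp K) = (fun x : V d => -x) ⁻¹' (Kp (-K)) := by
    ext x
    exact mem_Kp_neg.symm
  rw [h1]
  have h2 : MeasurableEmbedding (fun x : V d => -x) := (MeasurableEquiv.neg (V d)).measurableEmbedding
  have h3 := (Measure.measurePreserving_neg (volume : Measure (V d))).setIntegral_preimage_emb h2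
    (fun x => (starRingEnd ℂ) (Complex.exp (-Complex.I * lam * ((inner ℝ s x + topf (-K) x : ℝ) : ℂ)))) (Kp (-K))
  rw [← h3]
  congr 1
  ext x
  rw [← Complex.exp_conj]
  congr 1
  simp [botf]
  ring

theorem nrm_eq (d : ℕ) (lam : ℝ) : nrm d lam = lam * cst d lam := rfl

theorem nrm_fT_eq (hK : IsBody K) {lam : ℝ} (hl : lam ≠ 0) (s : V d) :
    (nrm d lam : ℂ) * fT K s lam = Complex.I * (U K lam s - (starRingEnd ℂ) (U (-K) lam s)) := by
  rw [fT_eq hK hl, conj_U_neg, nrm_eq]
  unfold U
  have : (lam : ℂ) ≠ 0 := by exact_mod_cast hl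
  push_cast
  field_simp

end

end Pool.Agent.Helper28.Cov
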