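import Pool.Agent.Helper28.Cov.Packet

/-!
Covariogram problem, Module B (helper28): domination and `L²` convergence of the packets.
-/

open MeasureTheory Set Filter Topology

namespace Pool.Agent.Helper28.Cov

open Pool.Agent.Helper77.Cov

section
variable {d : ℕ} {H : V d → ℝ} {R κ lam : ℝ}

theorem continuous_phase_mul (hH : PosC2 H) (lam : ℝ) :
    Continuous (fun s : V d => Complex.exp (Complex.I * lam * (H s : ℂ))) := by
  have := cont_H hH
  fun_prop

theorem sm_N (hH : PosC2 H) (R κ lam : ℝ) : StronglyMeasurable (N H R κ lam) := by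
  unfold N
  apply StronglyMeasurable.const_mul
  have h1 : Continuous (fun p : V d × V d => (gg H R p.2 : ℂ) * pk H κ lam p.1 p.2) := by
    have h2 : Continuous (fun p : V d × V d => gg H R p.2) := (continuous_gg hH).comp continuous_snd
    have h3 := continuous_pk hH κ lam
    fun_prop
  exact h1.stronglyMeasurable.integral_prod_right'

theorem sm_gam (hH : PosC2 H) (κ : ℝ) : StronglyMeasurable (fun s => gam κ (D H s)) := by
  unfold gam
  apply StronglyMeasurable.const_mul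
  have h1 : Continuous (fun p : V d × V d => Complex.exp (Complex.I / 2 * ((D H p.1 p.2 p.2 : ℝ) : ℂ) -
      ((κ / 2 : ℝ) : ℂ) * ((‖p.2‖ ^ 2 : ℝ) : ℂ))) := by
    have h2 : Continuous (fun p : V d × V d => D H p.1 p.2 p.2) :=
      (((cont_D hH).comp continuous_fst).clm_apply continuous_snd).clm_apply continuous_snd
    fun_prop
  exact h1.stronglyMeasurable.integral_prod_right'

theorem exists_dom (hH : PosC2 H) (hκ : 0 < κ) :
    ∃ C : ℝ, 0 < C ∧ ∀ lam : ℝ, 1 ≤ lam → ∀ s : V d,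
      ‖N H R κ lam s‖ ≤ C * Real.exp (-(κ / 8) * ‖s‖ ^ 2) := by
  obtain ⟨M, hM, hMb⟩ := exists_gg_bound hH R
  set I0 := ∫ v : V d, Real.exp (-(κ / 2 / 2) * ‖v‖ ^ 2) with hI0
  have hI0pos : 0 < I0 := by
    have h := integral_gauss (d := d) (b := κ / 2) (by positivity)
    have h2 := cst_pos (d := d) (b := κ / 2) (by positivity)
    by_contra hneg
    push Not at hneg
    have : cst d (κ / 2) * I0 ≤ 0 := mul_nonpos_of_nonneg_of_nonpos h2.le hneg
    rw [h] at this
    linarith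
  have hcp := cst_pos (d := d) (b := 1) one_pos
  refine ⟨cst d 1 * (M * Real.exp (κ / 4 * (R + 1) ^ 2) * I0), by positivity, ?_⟩
  intro lam hlam s
  have hl : 0 < lam := by linarith
  rw [N_eq hl, norm_mul, Complex.norm_of_nonneg hcp.le, mul_assoc]
  apply mul_le_mul_of_nonneg_left _ hcp.le
  have h1 : ∀ v : V d, ‖(gg H R (s + (Real.sqrt lam)⁻¹ • v) : ℂ) *
      pk H κ lam s (s + (Real.sqrt lam)⁻¹ • v)‖ ≤
      M * Real.exp (κ / 4 * (R + 1) ^ 2) * Real.exp (-(κ / 8) * ‖s‖ ^ 2) * Real.exp (-(κ / 2 / 2) * ‖v‖ ^ 2) := by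
    intro v
    rw [norm_mul, Complex.norm_of_nonneg (gg_nonneg hH _), norm_pk]
    have hsq : 0 ≤ (Real.sqrt lam)⁻¹ := by positivity
    have hs1 : (Real.sqrt lam)⁻¹ ≤ 1 := by
      apply inv_le_one_of_one_le₀
      rw [Real.one_le_sqrt]; exact hlam
    have hr2 : ((Real.sqrt lam)⁻¹) ^ 2 * lam = 1 := by
      rw [inv_pow, Real.sq_sqrt hl.le]; field_simp
    have e1 : -(lam * κ / 2) * ‖s + (Real.sqrt lam)⁻¹ • v - s‖ ^ 2 = -(κ / 2) * ‖v‖ ^ 2 := by
      rw [add_sub_cancel_left, norm_smul, Real.norm_of_nonneg hsq, mul_pow]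
      calc -(lam * κ / 2) * (((Real.sqrt lam)⁻¹) ^ 2 * ‖v‖ ^ 2)
          = (((Real.sqrt lam)⁻¹) ^ 2 * lam) * (-(κ / 2) * ‖v‖ ^ 2) := by ring
        _ = _ := by rw [hr2, one_mul]
    rw [e1]
    by_cases hz : R + 1 ≤ ‖s + (Real.sqrt lam)⁻¹ • v‖
    · rw [gg_eq_zero hz, zero_mul]
      positivity
    · push Not at hz
      rw [mul_assoc, mul_assoc, ← Real.exp_add, ← Real.exp_add]
      apply mul_le_mul (hMb _) _ (Real.exp_pos _).le hM.le
      apply Real.exp_le_exp.mpr
      have h2 : ‖s‖ ≤ (R + 1) + ‖v‖ := by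
        calc ‖s‖ = ‖(s + (Real.sqrt lam)⁻¹ • v) - (Real.sqrt lam)⁻¹ • v‖ := by rw [add_sub_cancel_right]
          _ ≤ ‖s + (Real.sqrt lam)⁻¹ • v‖ + ‖(Real.sqrt lam)⁻¹ • v‖ := norm_sub_le _ _
          _ ≤ (R + 1) + ‖v‖ := by
            apply add_le_add hz.le
            rw [norm_smul, Real.norm_of_nonneg hsq]
            nlinarith [norm_nonneg v]
      have h3 : ‖s‖ ^ 2 ≤ 2 * (R + 1) ^ 2 + 2 * ‖v‖ ^ 2 := by
        have : ‖s‖ ^ 2 ≤ ((R + 1) + ‖v‖) ^ 2 := pow_le_pow_left₀ (norm_nonneg _) h2 2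
        nlinarith [sq_nonneg ((R + 1) - ‖v‖)]
      nlinarith
  calc ‖∫ v, (gg H R (s + (Real.sqrt lam)⁻¹ • v) : ℂ) * pk H κ lam s (s + (Real.sqrt lam)⁻¹ • v)‖
      ≤ ∫ v, M * Real.exp (κ / 4 * (R + 1) ^ 2) * Real.exp (-(κ / 8) * ‖s‖ ^ 2) * Real.exp (-(κ / 2 / 2) * ‖v‖ ^ 2) := by
        apply norm_integral_le_of_norm_le
        · exact (integrable_gauss (by positivity)).const_mul _
        · exact Eventually.of_forall h1
    _ = _ := by
      rw [integral_const_mul]; ring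

theorem norm_gg_gam_le (hH : PosC2 H) (hκ : 0 < κ) {C : ℝ}
    (hC : ∀ lam : ℝ, 1 ≤ lam → ∀ s : V d, ‖N H R κ lam s‖ ≤ C * Real.exp (-(κ / 8) * ‖s‖ ^ 2)) (s : V d) :
    ‖(gg H R s : ℂ) * gam κ (D H s)‖ ≤ C * Real.exp (-(κ / 8) * ‖s‖ ^ 2) := by
  have h1 := (tendsto_N (R := R) hH hκ s).norm
  apply le_of_tendsto h1
  filter_upwards [eventually_ge_atTop 1] with lam hlam
  rw [norm_mul]
  have : ‖Complex.exp (Complex.I * lam * (H s : ℂ))‖ = 1 := by
    rw [Complex.norm_exp]; simp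
  rw [this, one_mul]
  exact hC lam hlam s

theorem integrable_gauss_sq (hκ : 0 < κ) (C : ℝ) :
    Integrable (fun s : V d => (C * Real.exp (-(κ / 8) * ‖s‖ ^ 2)) ^ 2) := by
  have h := (integrable_gauss (d := d) (b := κ / 2) (by positivity)).const_mul (C ^ 2)
  refine h.congr (Eventually.of_forall fun s => ?_)
  simp only
  rw [mul_pow, ← Real.exp_nat_mul]
  congr 2
  push_cast; ring

/-- `L²` convergence. -/
theorem tendsto_L2 (hH : PosC2 H) (hκ : 0 < κ) :
    Tendsto (fun lam : ℝ => ∫ s, ‖Complex.exp (Complex.I * lam * (H s : ℂ)) * N H R κ lam s -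
      (gg H R s : ℂ) * gam κ (D H s)‖ ^ 2) atTop (𝓝 0) := by
  obtain ⟨C, hC, hdom⟩ := exists_dom (R := R) hH hκ
  have h0 : (0 : ℝ) = ∫ s : V d, (0 : ℝ) := by simp
  rw [h0]
  apply tendsto_integral_filter_of_dominated_convergence
    (fun s => (2 * C * Real.exp (-(κ / 8) * ‖s‖ ^ 2)) ^ 2)
  · filter_upwards with lam
    have h1 := (continuous_phase_mul hH lam).stronglyMeasurable
    have h2 := sm_N hH R κ lam
    have h3 := sm_gam hH κ
    have h4 : StronglyMeasurable (fun s => (gg H R s : ℂ)) :=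
      (Complex.continuous_ofReal.comp (continuous_gg hH)).stronglyMeasurable
    exact (((h1.mul h2).sub (h4.mul h3)).norm.pow 2).aestronglyMeasurable
  · filter_upwards [eventually_ge_atTop 1] with lam hlam
    refine Eventually.of_forall fun s => ?_
    rw [norm_pow, norm_norm]
    apply pow_le_pow_left₀ (norm_nonneg _)
    have h1 : ‖Complex.exp (Complex.I * lam * (H s : ℂ))‖ = 1 := by
      rw [Complex.norm_exp]; simp
    calc _ ≤ _ := norm_sub_le _ _
      _ ≤ C * Real.exp (-(κ / 8) * ‖s‖ ^ 2) + C * Real.exp (-(κ / 8) * ‖s‖ ^ 2) := by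
        apply add_le_add
        · rw [norm_mul, h1, one_mul]; exact hdom lam hlam s
        · exact norm_gg_gam_le hH hκ hdom s
      _ = _ := by ring
  · exact integrable_gauss_sq hκ _
  · refine Eventually.of_forall fun s => ?_
    have := ((tendsto_N (R := R) hH hκ s).sub_const ((gg H R s : ℂ) * gam κ (D H s))).norm.pow 2
    simpa using this

theorem memLp_N (hH : PosC2 H) (hκ : 0 < κ) (hl : 1 ≤ lam) :
    MemLp (N H R κ lam) 2 := by
  obtain ⟨C, hC, hdom⟩ := exists_dom (R := R) hH hκ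
  rw [memLp_two_iff_integrable_sq_norm (sm_N hH R κ lam).aestronglyMeasurable]
  apply (integrable_gauss_sq hκ C).mono' ((sm_N hH R κ lam).norm.pow 2).aestronglyMeasurable
  refine Eventually.of_forall fun s => ?_
  change ‖‖N H R κ lam s‖ ^ 2‖ ≤ _
  rw [norm_pow, norm_norm]
  exact pow_le_pow_left₀ (norm_nonneg _) (hdom lam hl s) 2

/-- The norm of the superposition. -/
theorem tendsto_normN (hH : PosC2 H) (hκ : 0 < κ) :
    Tendsto (fun lam : ℝ => ∫ s, ‖N H R κ lam s‖ ^ 2) atTop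
      (𝓝 (∫ s, ‖(gg H R s : ℂ) * gam κ (D H s)‖ ^ 2)) := by
  obtain ⟨C, hC, hdom⟩ := exists_dom (R := R) hH hκ
  apply tendsto_integral_filter_of_dominated_convergence
    (fun s => (C * Real.exp (-(κ / 8) * ‖s‖ ^ 2)) ^ 2)
  · filter_upwards with lam
    exact ((sm_N hH R κ lam).norm.pow 2).aestronglyMeasurable
  · filter_upwards [eventually_ge_atTop 1] with lam hlam
    refine Eventually.of_forall fun s => ?_
    rw [norm_pow, norm_norm]
    exact pow_le_pow_left₀ (norm_nonneg _) (hdom lam hlam s) 2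
  · exact integrable_gauss_sq hκ _
  · refine Eventually.of_forall fun s => ?_
    have h1 := (tendsto_N (R := R) hH hκ s).norm.pow 2
    refine h1.congr fun lam => ?_
    rw [norm_mul]
    have : ‖Complex.exp (Complex.I * lam * (H s : ℂ))‖ = 1 := by
      rw [Complex.norm_exp]; simp
    rw [this, one_mul]

theorem integral_gg_gam_le (hH : PosC2 H) (hκ : 0 < κ) :
    ∫ s, ‖(gg H R s : ℂ) * gam κ (D H s)‖ ^ 2 ≤ ∫ s, gg H R s := by
  apply integral_mono_of_nonneg
  · exact Eventually.of_forall fun s => by positivity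
  · exact integrable_gg hH
  · refine Eventually.of_forall fun s => ?_
    simp only
    have h1 := norm_gam_sq_le hκ (D H s) (D_symm hH s) (hH.2 s)
    rw [← hess_eq_matB] at h1
    rw [norm_mul, Complex.norm_of_nonneg (gg_nonneg hH _), mul_pow]
    have hJ := J_pos hH s
    have h2 : gg H R s ^ 2 ≤ gg H R s * J H s := by
      rw [pow_two]
      exact mul_le_mul_of_nonneg_left (gg_le hH s) (gg_nonneg hH s)
    calc gg H R s ^ 2 * ‖gam κ (D H s)‖ ^ 2 ≤ (gg H R s * J H s) * ‖gam κ (D H s)‖ ^ 2 := by gcongr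
      _ = gg H R s * (‖gam κ (D H s)‖ ^ 2 * J H s) := by ring
      _ ≤ gg H R s * 1 := by
        apply mul_le_mul_of_nonneg_left h1 (gg_nonneg hH s)
      _ = _ := mul_one _

end

end Pool.Agent.Helper28.Cov
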