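import Pool.Agent.Helper28.Cov.Gauss

/-!
Covariogram problem, Module B (helper28): Gaussian integrals with complex quadratic form.
-/

open MeasureTheory Set Filter Topology

namespace Pool.Agent.Helper28.Cov

open Pool.Agent.Helper77.Cov

/-- Matrix of a bilinear form in the standard basis. -/
noncomputable def matB {d : ℕ} (B : V d →L[ℝ] V d →L[ℝ] ℝ) : Matrix (Fin d) (Fin d) ℝ :=
  Matrix.of fun i j => B (EuclideanSpace.single i 1) (EuclideanSpace.single j 1)

theorem hess_eq_matB {d : ℕ} (f : V d → ℝ) (x : V d) :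
    hess f x = matB (fderiv ℝ (fderiv ℝ f) x) := rfl

theorem bilin_eq {d : ℕ} (B : V d →L[ℝ] V d →L[ℝ] ℝ) (v w : V d) :
    B v w = v.ofLp ⬝ᵥ (matB B).mulVec w.ofLp := by
  have hv : v = ∑ i, v.ofLp i • EuclideanSpace.single i (1 : ℝ) := by
    ext j; simp [Finset.sum_apply, Pi.single_apply]
  have hw : w = ∑ i, w.ofLp i • EuclideanSpace.single i (1 : ℝ) := by
    ext j; simp [Finset.sum_apply, Pi.single_apply]
  conv_lhs => rw [hv, hw]
  simp only [map_sum, map_smul, FunLike.coe_sum, FunLike.coe_smul,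
    Finset.sum_apply, Pi.smul_apply, smul_eq_mul, dotProduct, Matrix.mulVec, matB, Matrix.of_apply,
    Finset.mul_sum]
  rw [Finset.sum_comm]
  refine Finset.sum_congr rfl fun i _ => ?_
  refine Finset.sum_congr rfl fun j _ => ?_
  ring

/-- Diagonalisation of a positive definite form by an orthonormal basis. -/
theorem exists_diag {d : ℕ} (B : V d →L[ℝ] V d →L[ℝ] ℝ) (hs : ∀ v w, B v w = B w v)
    (hp : ∀ v, v ≠ 0 → 0 < B v v) :
    ∃ (q : Fin d → ℝ) (b : OrthonormalBasis (Fin d) ℝ (V d)), (∀ i, 0 < q i) ∧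
      ∏ i, q i = (matB B).det ∧
      ∀ w : V d, B (b.repr.symm w) (b.repr.symm w) = ∑ i, q i * (w.ofLp i) ^ 2 := by
  have hH : (matB B).IsHermitian := by
    ext i j
    simp [matB, hs (EuclideanSpace.single i 1) (EuclideanSpace.single j 1)]
  refine ⟨hH.eigenvalues, hH.eigenvectorBasis, ?_, ?_, ?_⟩
  · have key : ∀ i, B (hH.eigenvectorBasis i) (hH.eigenvectorBasis i) = hH.eigenvalues i := by
      intro i
      rw [bilin_eq, hH.mulVec_eigenvectorBasis, dotProduct_smul]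
      have : (hH.eigenvectorBasis i).ofLp ⬝ᵥ (hH.eigenvectorBasis i).ofLp = 1 := by
        have h1 : inner ℝ (hH.eigenvectorBasis i) (hH.eigenvectorBasis i) = (1 : ℝ) := by
          rw [real_inner_self_eq_norm_sq, hH.eigenvectorBasis.norm_eq_one]; norm_num
        rw [PiLp.inner_apply] at h1
        simpa [dotProduct, mul_comm, pow_two] using h1
      rw [this]; simp
    intro i
    rw [← key i]
    apply hp
    intro h0
    have := hH.eigenvectorBasis.norm_eq_one i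
    rw [h0] at this
    simp at this
  · rw [hH.det_eq_prod_eigenvalues]; simp
  · intro w
    have key : ∀ i j, B (hH.eigenvectorBasis i) (hH.eigenvectorBasis j) =
        if i = j then hH.eigenvalues i else 0 := by
      intro i j
      rw [bilin_eq, hH.mulVec_eigenvectorBasis, dotProduct_smul]
      have : (hH.eigenvectorBasis i).ofLp ⬝ᵥ (hH.eigenvectorBasis j).ofLp = if i = j then 1 else 0 := by
        have h1 := (orthonormal_iff_ite.mp hH.eigenvectorBasis.orthonormal) i j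
        rw [PiLp.inner_apply] at h1
        simpa [dotProduct, mul_comm] using h1
      rw [this]
      by_cases h : i = j
      · subst h; simp
      · simp [h]
    rw [← OrthonormalBasis.sum_repr_symm]
    simp only [map_sum, map_smul, FunLike.coe_sum, FunLike.coe_smul,
      Finset.sum_apply, Pi.smul_apply, smul_eq_mul, key]
    refine Finset.sum_congr rfl fun i _ => ?_
    simp
    ring

/-- The Gaussian integral `(2π)^{-d/2} ∫ exp(i/2 B(v,v) - κ/2 |v|²) dv`. -/
noncomputable def gam {d : ℕ} (κ : ℝ) (B : V d →L[ℝ] V d →L[ℝ] ℝ) : ℂ :=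
  (cst d 1 : ℂ) * ∫ v : V d, Complex.exp (Complex.I / 2 * (B v v : ℝ) - (κ / 2 : ℝ) * (‖v‖ ^ 2 : ℝ))

theorem gam_eq {d : ℕ} {κ : ℝ} (hκ : 0 < κ) (B : V d →L[ℝ] V d →L[ℝ] ℝ)
    {q : Fin d → ℝ} {b : OrthonormalBasis (Fin d) ℝ (V d)}
    (hB : ∀ w : V d, B (b.repr.symm w) (b.repr.symm w) = ∑ i, q i * (w.ofLp i) ^ 2) :
    gam κ B = (cst d 1 : ℂ) * ∏ i, (Real.pi / (((κ / 2 : ℝ) : ℂ) - Complex.I / 2 * (q i : ℂ))) ^ (1 / 2 : ℂ) := by
  unfold gam
  congr 1
  rw [← b.measurePreserving_repr_symm.integral_comp b.repr.symm.toHomeomorph.measurableEmbedding]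
  rw [← (PiLp.volume_preserving_toLp (Fin d)).integral_comp (MeasurableEquiv.toLp 2 _).measurableEmbedding]
  have h := GaussianFourier.integral_cexp_neg_sum_mul_add (ι := Fin d)
    (b := fun i => (((κ / 2 : ℝ) : ℂ) - Complex.I / 2 * (q i : ℂ))) (fun i => by simpa using hκ) 0
  simp only [Pi.zero_apply, zero_mul, Finset.sum_const_zero, add_zero, ne_eq, OfNat.ofNat_ne_zero,
    not_false_eq_true, zero_pow, zero_div, Complex.exp_zero, mul_one] at h
  have h2 : ∀ v : Fin d → ℝ, Complex.exp (Complex.I / 2 * (B (b.repr.symm (WithLp.toLp 2 v)) (b.repr.symm (WithLp.toLp 2 v)) : ℝ) -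
      (κ / 2 : ℝ) * (‖b.repr.symm (WithLp.toLp 2 v)‖ ^ 2 : ℝ)) =
      Complex.exp (-∑ i, (((κ / 2 : ℝ) : ℂ) - Complex.I / 2 * (q i : ℂ)) * (v i : ℂ) ^ 2) := by
    intro v
    congr 1
    rw [hB, LinearIsometryEquiv.norm_map, EuclideanSpace.norm_sq_eq]
    simp only [Real.norm_eq_abs, sq_abs, sub_mul, Finset.sum_sub_distrib, neg_sub, Complex.ofReal_sum,
      Complex.ofReal_mul, Complex.ofReal_pow, Finset.mul_sum]
    congr 1
    refine Finset.sum_congr rfl fun i _ => ?_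
    ring
  have h3 : (fun v : Fin d → ℝ => Complex.exp (Complex.I / 2 * (B (b.repr.symm (WithLp.toLp 2 v)) (b.repr.symm (WithLp.toLp 2 v)) : ℝ) -
      (κ / 2 : ℝ) * (‖b.repr.symm (WithLp.toLp 2 v)‖ ^ 2 : ℝ))) = fun v =>
      Complex.exp (-∑ i, (((κ / 2 : ℝ) : ℂ) - Complex.I / 2 * (q i : ℂ)) * (v i : ℂ) ^ 2) := funext h2
  rw [← h, ← h3]

theorem cst_one_sq (d : ℕ) : cst d 1 ^ 2 = ∏ _i : Fin d, (1 / (2 * Real.pi)) := by
  unfold cst
  have hpi := Real.pi_pos
  rw [Finset.prod_const, Finset.card_univ, Fintype.card_fin, ← Real.rpow_natCast,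
    ← Real.rpow_mul (by positivity), ← Real.rpow_natCast]
  congr 1
  push_cast; ring

theorem cst_one_eq (d : ℕ) : cst d 1 = ∏ _i : Fin d, Real.sqrt (1 / (2 * Real.pi)) := by
  unfold cst
  have hpi := Real.pi_pos
  rw [Finset.prod_const, Finset.card_univ, Fintype.card_fin, Real.sqrt_eq_rpow, ← Real.rpow_natCast,
    ← Real.rpow_mul (by positivity)]
  congr 1
  ring

theorem norm_gam_sq_le {d : ℕ} {κ : ℝ} (hκ : 0 < κ) (B : V d →L[ℝ] V d →L[ℝ] ℝ)
    (hs : ∀ v w, B v w = B w v) (hp : ∀ v, v ≠ 0 → 0 < B v v) :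
    ‖gam κ B‖ ^ 2 * (matB B).det ≤ 1 := by
  obtain ⟨q, b, hq, hdet, hB⟩ := exists_diag B hs hp
  rw [gam_eq hκ B hB, ← hdet]
  have hpi := Real.pi_pos
  rw [norm_mul, norm_prod, mul_pow, Complex.norm_of_nonneg (cst_pos one_pos).le, cst_one_sq,
    ← Finset.prod_pow, ← Finset.prod_mul_distrib, ← Finset.prod_mul_distrib]
  apply Finset.prod_le_one
  · intro i _
    have := hq i
    positivity
  · intro i _
    have hqi := hq i
    have h1 : ‖(Real.pi / (((κ / 2 : ℝ) : ℂ) - Complex.I / 2 * (q i : ℂ))) ^ (1 / 2 : ℂ)‖ ^ 2 =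
        ‖(Real.pi : ℂ) / (((κ / 2 : ℝ) : ℂ) - Complex.I / 2 * (q i : ℂ))‖ := by
      have : (1 / 2 : ℂ) = ((1 / 2 : ℝ) : ℂ) := by push_cast; ring
      rw [this, Complex.norm_cpow_real, ← Real.rpow_natCast, ← Real.rpow_mul (norm_nonneg _)]
      norm_num
    rw [h1, norm_div, Complex.norm_of_nonneg hpi.le]
    have h2 : q i / 2 ≤ ‖(((κ / 2 : ℝ) : ℂ) - Complex.I / 2 * (q i : ℂ))‖ := by
      have := Complex.abs_im_le_norm (((κ / 2 : ℝ) : ℂ) - Complex.I / 2 * (q i : ℂ))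
      have h3 : (((κ / 2 : ℝ) : ℂ) - Complex.I / 2 * (q i : ℂ)).im = - (q i / 2) := by
        simp; ring
      rw [h3, abs_neg, abs_of_pos (by positivity)] at this
      exact this
    have h4 : 0 < ‖(((κ / 2 : ℝ) : ℂ) - Complex.I / 2 * (q i : ℂ))‖ := lt_of_lt_of_le (by positivity) h2
    rw [show 1 / (2 * Real.pi) * (Real.pi / ‖(((κ / 2 : ℝ) : ℂ) - Complex.I / 2 * (q i : ℂ))‖) * q i =
      (q i / 2) / ‖(((κ / 2 : ℝ) : ℂ) - Complex.I / 2 * (q i : ℂ))‖ by field_simp]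
    rw [div_le_one h4]
    exact h2

/-- The limit of the Gaussian integral as the damping goes to zero. -/
theorem tendsto_gam {d : ℕ} (B : V d →L[ℝ] V d →L[ℝ] ℝ)
    (hs : ∀ v w, B v w = B w v) (hp : ∀ v, v ≠ 0 → 0 < B v v) :
    Tendsto (fun κ : ℝ => gam κ B) (𝓝[>] 0)
      (𝓝 (Complex.exp (Complex.I * (Real.pi * d / 4 : ℝ)) * ((Real.sqrt ((matB B).det))⁻¹ : ℝ))) := by
  obtain ⟨q, b, hq, hdet, hB⟩ := exists_diag B hs hp
  have hpi := Real.pi_pos
  have hlim : Tendsto (fun κ : ℝ => (cst d 1 : ℂ) *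
      ∏ i, (Real.pi / (((κ / 2 : ℝ) : ℂ) - Complex.I / 2 * (q i : ℂ))) ^ (1 / 2 : ℂ)) (𝓝[>] 0)
      (𝓝 ((cst d 1 : ℂ) * ∏ i, ((Real.pi : ℂ) / (((0 / 2 : ℝ) : ℂ) - Complex.I / 2 * (q i : ℂ))) ^ (1 / 2 : ℂ))) := by
    apply Tendsto.mul tendsto_const_nhds
    apply tendsto_finsetProd
    intro i _
    have hqi := hq i
    have hne : (((0 / 2 : ℝ) : ℂ) - Complex.I / 2 * (q i : ℂ)) ≠ 0 := by
      intro h
      have := congrArg Complex.im h
      simp at this
      linarith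
    have hc : ContinuousAt (fun κ : ℝ => ((Real.pi : ℂ) / (((κ / 2 : ℝ) : ℂ) - Complex.I / 2 * (q i : ℂ))) ^ (1 / 2 : ℂ)) 0 := by
      have hca : ContinuousAt (fun κ : ℝ => ((Real.pi : ℂ) / (((κ / 2 : ℝ) : ℂ) - Complex.I / 2 * (q i : ℂ)))) 0 := by
        have hcb : ContinuousAt (fun κ : ℝ => (((κ / 2 : ℝ) : ℂ) - Complex.I / 2 * (q i : ℂ))) 0 := by
          fun_prop
        exact ContinuousAt.div continuousAt_const hcb hne
      apply hca.cpow continuousAt_const
      right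
      rw [Complex.div_im]
      have : (((0 / 2 : ℝ) : ℂ) - Complex.I / 2 * (q i : ℂ)).im = -(q i / 2) := by simp; ring
      have h2 : 0 < Complex.normSq (((0 / 2 : ℝ) : ℂ) - Complex.I / 2 * (q i : ℂ)) := Complex.normSq_pos.mpr hne
      rw [this]
      simp only [Complex.ofReal_im, zero_mul, zero_div, zero_sub, Complex.ofReal_re]
      intro h
      have h3 : Real.pi * -(q i / 2) / Complex.normSq (((0 / 2 : ℝ) : ℂ) - Complex.I / 2 * (q i : ℂ)) = 0 := by
        linarith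
      rw [div_eq_zero_iff] at h3
      rcases h3 with h3 | h3
      · have : 0 < Real.pi * (q i / 2) := by positivity
        linarith
      · linarith
    exact hc.tendsto.mono_left nhdsWithin_le_nhds
  have heq : (cst d 1 : ℂ) * ∏ i, ((Real.pi : ℂ) / (((0 / 2 : ℝ) : ℂ) - Complex.I / 2 * (q i : ℂ))) ^ (1 / 2 : ℂ) =
      Complex.exp (Complex.I * (Real.pi * d / 4 : ℝ)) * ((Real.sqrt ((matB B).det))⁻¹ : ℝ) := by
    rw [← hdet, cst_one_eq]
    rw [Complex.ofReal_prod, ← Finset.prod_mul_distrib]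
    have h1 : ∀ i, ((Real.sqrt (1 / (2 * Real.pi)) : ℝ) : ℂ) * ((Real.pi : ℂ) / (((0 / 2 : ℝ) : ℂ) - Complex.I / 2 * (q i : ℂ))) ^ (1 / 2 : ℂ)
        = Complex.exp (Complex.I * (Real.pi / 4 : ℝ)) * ((Real.sqrt (q i))⁻¹ : ℝ) := by
      intro i
      have hqi := hq i
      have h2 : (Real.pi : ℂ) / (((0 / 2 : ℝ) : ℂ) - Complex.I / 2 * (q i : ℂ)) = ((2 * Real.pi / q i : ℝ) : ℂ) * Complex.I := by
        have : (q i : ℂ) ≠ 0 := by exact_mod_cast hqi.ne'
        push_cast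
        field_simp
        rw [show ((0 : ℂ) - Complex.I * (q i : ℂ)) = -(Complex.I * q i) by ring]
        field_simp
        rw [Complex.I_sq]; ring
      have hr : 0 < 2 * Real.pi / q i := by positivity
      rw [h2, Complex.cpow_def_of_ne_zero (by
        apply mul_ne_zero
        · exact_mod_cast hr.ne'
        · exact Complex.I_ne_zero), Complex.log_ofReal_mul hr Complex.I_ne_zero, Complex.log_I]
      have h3 : ((Real.log (2 * Real.pi / q i) : ℂ) + (Real.pi / 2 : ℂ) * Complex.I) * (1 / 2 : ℂ) =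
        ((Real.log (Real.sqrt (2 * Real.pi / q i)) : ℝ) : ℂ) + Complex.I * ((Real.pi / 4 : ℝ) : ℂ) := by
        rw [Real.log_sqrt hr.le]; push_cast; ring
      rw [h3, Complex.exp_add, ← Complex.ofReal_exp, Real.exp_log (Real.sqrt_pos.mpr hr), ← mul_assoc,
        ← Complex.ofReal_mul, ← Real.sqrt_mul (by positivity), mul_comm]
      congr 2
      rw [← Real.sqrt_inv]
      congr 1
      field_simp
    rw [Finset.prod_congr rfl fun i _ => h1 i, Finset.prod_mul_distrib, Finset.prod_const,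
      Finset.card_univ, Fintype.card_fin, ← Complex.exp_nat_mul]
    congr 1
    · congr 1; push_cast; ring
    · rw [← Complex.ofReal_prod, Finset.prod_inv_distrib, Real.sqrt_prod _ (fun i _ => (hq i).le)]
  rw [← heq]
  refine hlim.congr' ?_
  filter_upwards [self_mem_nhdsWithin] with κ hκ
  exact (gam_eq hκ B hB).symm

end Pool.Agent.Helper28.Cov
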