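import Pool.Agent.Helper77.Cov.Defs

/-!
Covariogram problem, Module B (helper28): Gaussian integrals.
-/

open MeasureTheory Set Filter Topology

namespace Pool.Agent.Helper28.Cov

open Pool.Agent.Helper77.Cov

/-- The normalising constant of a Gaussian of inverse variance `b`. -/
noncomputable def cst (d : ℕ) (b : ℝ) : ℝ := (b / (2 * Real.pi)) ^ ((d : ℝ) / 2)

theorem cst_pos {d : ℕ} {b : ℝ} (hb : 0 < b) : 0 < cst d b := by
  unfold cst; positivity

theorem cst_mul_inv {d : ℕ} {b : ℝ} (hb : 0 < b) : cst d b * (2 * Real.pi / b) ^ ((d : ℝ) / 2) = 1 := by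
  unfold cst
  have hpi := Real.pi_pos
  rw [← Real.mul_rpow (by positivity) (by positivity)]
  have : b / (2 * Real.pi) * (2 * Real.pi / b) = 1 := by field_simp
  rw [this, Real.one_rpow]

theorem cst_mul {d : ℕ} {b c : ℝ} (hb : 0 < b) (hc : 0 < c) :
    cst d (b * c) = cst d b * c ^ ((d : ℝ) / 2) := by
  unfold cst
  have hpi := Real.pi_pos
  rw [← Real.mul_rpow (by positivity) (by positivity)]
  congr 1; ring

theorem cst_sq_div {d : ℕ} {b c : ℝ} (hb : 0 < b) (hc : 0 < c) :
    cst d b * cst d b = cst d (b * c) * cst d (b / c) := by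
  unfold cst
  have hpi := Real.pi_pos
  rw [← Real.mul_rpow (by positivity) (by positivity), ← Real.mul_rpow (by positivity) (by positivity)]
  congr 1; field_simp

theorem integrable_gauss {d : ℕ} {b : ℝ} (hb : 0 < b) :
    Integrable (fun v : V d => Real.exp (-(b / 2) * ‖v‖ ^ 2)) := by
  have h := GaussianFourier.integrable_cexp_neg_mul_sq_norm_add (V := V d) (b := ((b / 2 : ℝ) : ℂ))
    (by simpa using (by positivity : 0 < b / 2)) 0 0
  have h2 := h.norm
  refine h2.congr (Eventually.of_forall fun v => ?_)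
  simp only
  rw [Complex.norm_exp]
  congr 1
  simp [pow_two]

theorem integral_gauss {d : ℕ} {b : ℝ} (hb : 0 < b) :
    cst d b * ∫ v : V d, Real.exp (-(b / 2) * ‖v‖ ^ 2) = 1 := by
  rw [GaussianFourier.integral_rexp_neg_mul_sq_norm (by positivity : 0 < b / 2)]
  rw [finrank_euclideanSpace_fin]
  have : Real.pi / (b / 2) = 2 * Real.pi / b := by field_simp
  rw [this, cst_mul_inv hb]

theorem integral_gauss_fourier {d : ℕ} {b : ℝ} (hb : 0 < b) (w : V d) :
    (cst d b : ℂ) * ∫ v : V d, Complex.exp (-((b / 2 : ℝ) : ℂ) * ‖v‖ ^ 2 + Complex.I * inner ℝ w v) =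
      Complex.exp (-(‖w‖ ^ 2 / (2 * b) : ℝ)) := by
  rw [GaussianFourier.integral_cexp_neg_mul_sq_norm_add (V := V d) (b := ((b / 2 : ℝ) : ℂ))
    (by simpa using (by positivity : 0 < b / 2)) Complex.I w]
  rw [finrank_euclideanSpace_fin]
  have hpi := Real.pi_pos
  have h1 : ((Real.pi : ℂ) / ((b / 2 : ℝ) : ℂ)) ^ ((d : ℂ) / 2) =
      (((2 * Real.pi / b) ^ ((d : ℝ) / 2) : ℝ) : ℂ) := by
    rw [Complex.ofReal_cpow (by positivity)]
    congr 1
    · push_cast; field_simp
    · push_cast; ring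
  rw [h1, ← mul_assoc, ← Complex.ofReal_mul, cst_mul_inv hb]
  simp only [Complex.ofReal_one, one_mul]
  congr 1
  rw [Complex.I_sq]
  push_cast
  have : (b : ℂ) ≠ 0 := by exact_mod_cast hb.ne'
  field_simp
  ring

/-- Change of variables `t = s + v / √λ`. -/
theorem scaling {d : ℕ} {E : Type*} [NormedAddCommGroup E] [NormedSpace ℝ E] {lam : ℝ}
    (hl : 0 < lam) (F : V d → E) (s : V d) :
    cst d lam • ∫ t, F t = cst d 1 • ∫ v, F (s + (Real.sqrt lam)⁻¹ • v) := by
  have h1 : ∫ v, F (s + (Real.sqrt lam)⁻¹ • v) = |(((Real.sqrt lam)⁻¹) ^ d)⁻¹| • ∫ v, F (s + v) := by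
    have := Measure.integral_comp_smul (volume : Measure (V d)) (fun v => F (s + v)) (Real.sqrt lam)⁻¹
    rw [finrank_euclideanSpace_fin] at this
    exact this
  have h2 : ∫ v, F (s + v) = ∫ t, F t := integral_add_left_eq_self F s
  rw [h1, h2, smul_smul]
  congr 1
  have hs : 0 < Real.sqrt lam := Real.sqrt_pos.mpr hl
  rw [abs_of_pos (by positivity)]
  have h3 : ((Real.sqrt lam)⁻¹ ^ d)⁻¹ = lam ^ ((d : ℝ) / 2) := by
    rw [inv_pow, inv_inv, Real.sqrt_eq_rpow, ← Real.rpow_natCast, ← Real.rpow_mul hl.le]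
    congr 1; ring
  rw [h3]
  have := cst_mul (d := d) (b := 1) (c := lam) one_pos hl
  rw [one_mul] at this
  exact this

end Pool.Agent.Helper28.Cov
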