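import Pool.Agent.Helper28.Cov.Pair2

/-!
Covariogram problem, Module B (helper28): averaged asymptotics of the Fourier transform of a
convex body.
-/

open MeasureTheory Set Filter Topology

namespace Pool.Agent.Helper28.Cov

open Pool.Agent.Helper77.Cov

section
variable {d : ℕ} {K : Set (V d × ℝ)} {H : V d → ℝ} {R κ lam : ℝ}

/-- Main term. -/
noncomputable def MM (H : V d → ℝ) (lam : ℝ) (s : V d) : ℂ :=
  Complex.exp (Complex.I * (Real.pi * d / 4 : ℝ)) * (Real.sqrt (J H s) : ℂ) *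
    Complex.exp (-Complex.I * lam * (H s : ℂ))

theorem lintegral_sq_eq {f : V d → ℂ} {μ : Measure (V d)} (hf : MemLp f 2 μ) :
    ∫⁻ s, ‖f s‖ₑ ^ 2 ∂μ = ENNReal.ofReal (∫ s, ‖f s‖ ^ 2 ∂μ) := by
  have h := (memLp_two_iff_integrable_sq_norm hf.1).mp hf
  rw [ofReal_integral_eq_lintegral_ofReal h (Eventually.of_forall fun s => by positivity)]
  congr 1
  ext s
  rw [ENNReal.ofReal_pow (norm_nonneg _), ofReal_norm]

theorem tendsto_gg (hH : PosC2 H) (hJ : Integrable (J H)) :
    Tendsto (fun R : ℝ => ∫ s, gg H R s) atTop (𝓝 (∫ s, J H s)) := by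
  apply tendsto_integral_filter_of_dominated_convergence (J H)
  · exact Eventually.of_forall fun R => (continuous_gg hH).aestronglyMeasurable
  · refine Eventually.of_forall fun R => Eventually.of_forall fun s => ?_
    rw [Real.norm_of_nonneg (gg_nonneg hH s)]
    exact gg_le hH s
  · exact hJ
  · refine Eventually.of_forall fun s => ?_
    apply tendsto_const_nhds.congr'
    filter_upwards [eventually_ge_atTop ‖s‖] with R hR
    unfold gg
    rw [cut_eq_one hR, one_mul]

theorem tendsto_kappa (hH : PosC2 H) (hJ : Integrable (J H)) (B : Set (V d)) :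
    Tendsto (fun κ : ℝ => ∫ s in B, ‖(J H s : ℂ) * gam κ (D H s) -
      Complex.exp (Complex.I * (Real.pi * d / 4 : ℝ)) * (Real.sqrt (J H s) : ℂ)‖ ^ 2) (𝓝[>] 0) (𝓝 0) := by
  have h0 : 𝓝 (0 : ℝ) = 𝓝 (∫ s in B, (0 : ℝ)) := by simp
  rw [h0]
  apply tendsto_integral_filter_of_dominated_convergence (fun s => 4 * J H s)
  · refine Eventually.of_forall fun κ => ?_
    have h3 := sm_gam hH κ
    have h4 : StronglyMeasurable (fun s => (J H s : ℂ)) :=
      (Complex.continuous_ofReal.comp (cont_J hH)).stronglyMeasurable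
    have h5 : StronglyMeasurable (fun s => Complex.exp (Complex.I * (Real.pi * d / 4 : ℝ)) * (Real.sqrt (J H s) : ℂ)) := by
      apply Continuous.stronglyMeasurable
      have := cont_J hH
      fun_prop
    exact (((h4.mul h3).sub h5).norm.pow 2).aestronglyMeasurable
  · filter_upwards [self_mem_nhdsWithin] with κ hκ
    refine Eventually.of_forall fun s => ?_
    have hJ0 := J_pos hH s
    rw [norm_pow, norm_norm]
    have h1 := norm_gam_sq_le hκ (D H s) (D_symm hH s) (hH.2 s)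
    rw [← hess_eq_matB] at h1
    have h2 : ‖(J H s : ℂ) * gam κ (D H s)‖ ≤ Real.sqrt (J H s) := by
      apply Real.le_sqrt_of_sq_le
      rw [norm_mul, Complex.norm_of_nonneg hJ0.le, mul_pow]
      calc J H s ^ 2 * ‖gam κ (D H s)‖ ^ 2 = J H s * (‖gam κ (D H s)‖ ^ 2 * J H s) := by ring
        _ ≤ J H s * 1 := mul_le_mul_of_nonneg_left h1 hJ0.le
        _ = J H s := mul_one _
    have h3 : ‖Complex.exp (Complex.I * (Real.pi * d / 4 : ℝ)) * (Real.sqrt (J H s) : ℂ)‖ = Real.sqrt (J H s) := by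
      rw [norm_mul, Complex.norm_exp, Complex.norm_of_nonneg (Real.sqrt_nonneg _)]
      simp
    calc _ ≤ (Real.sqrt (J H s) + Real.sqrt (J H s)) ^ 2 := by
          apply pow_le_pow_left₀ (norm_nonneg _)
          apply (norm_sub_le _ _).trans
          exact add_le_add h2 h3.le
      _ = 4 * Real.sqrt (J H s) ^ 2 := by ring
      _ = 4 * J H s := by rw [Real.sq_sqrt hJ0.le]
  · exact (hJ.const_mul 4).integrableOn
  · refine Eventually.of_forall fun s => ?_
    have hJ0 := J_pos hH s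
    have h1 := tendsto_gam (D H s) (D_symm hH s) (hH.2 s)
    have h2 : (matB (D H s)).det = J H s := rfl
    rw [h2] at h1
    have h3 := ((h1.const_mul (J H s : ℂ)).sub_const
      (Complex.exp (Complex.I * (Real.pi * d / 4 : ℝ)) * (Real.sqrt (J H s) : ℂ))).norm.pow 2
    have h4 : (J H s : ℂ) * (Complex.exp (Complex.I * (Real.pi * d / 4 : ℝ)) * ((Real.sqrt (J H s))⁻¹ : ℝ)) -
        Complex.exp (Complex.I * (Real.pi * d / 4 : ℝ)) * (Real.sqrt (J H s) : ℂ) = 0 := by
      have h5 : (J H s : ℂ) * ((Real.sqrt (J H s))⁻¹ : ℝ) = (Real.sqrt (J H s) : ℂ) := by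
        rw [← Complex.ofReal_mul]
        congr 1
        nth_rw 1 [← Real.sq_sqrt hJ0.le]
        have := Real.sqrt_pos.mpr hJ0
        field_simp
      calc _ = Complex.exp (Complex.I * (Real.pi * d / 4 : ℝ)) * ((J H s : ℂ) * ((Real.sqrt (J H s))⁻¹ : ℝ)) -
            Complex.exp (Complex.I * (Real.pi * d / 4 : ℝ)) * (Real.sqrt (J H s) : ℂ) := by ring
        _ = 0 := by rw [h5, sub_self]
    rw [h4] at h3
    simpa using h3

theorem norm_U_sub_N (hK : IsBody K) (hH : PosC2 (Hup K)) (hκ : 0 < κ) (hl : 1 ≤ lam) {C : ℝ}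
    (hC : ‖(∫ s, U K lam s * (starRingEnd ℂ) (N (Hup K) R κ lam s)) - ((∫ t, gg (Hup K) R t : ℝ) : ℂ)‖ ≤ C * κ) :
    ∫ s, ‖U K lam s - N (Hup K) R κ lam s‖ ^ 2 ≤
      (volume (Kp K)).toReal + (∫ s, ‖N (Hup K) R κ lam s‖ ^ 2) - 2 * (∫ t, gg (Hup K) R t) + 2 * (C * κ) := by
  have hl0 : 0 < lam := by linarith
  have hU := memLp_U (K := K) hK.compact hl0
  have hN := memLp_N (R := R) hH hκ hl
  have hU2 := (memLp_two_iff_integrable_sq_norm hU.1).mp hU
  have hN2 := (memLp_two_iff_integrable_sq_norm hN.1).mp hN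
  have hNc : MemLp (fun s => (starRingEnd ℂ) (N (Hup K) R κ lam s)) 2 := hN.star
  have hUN : Integrable (fun s => U K lam s * (starRingEnd ℂ) (N (Hup K) R κ lam s)) :=
    hU.integrable_mul hNc
  have h1 : ∀ s, ‖U K lam s - N (Hup K) R κ lam s‖ ^ 2 = ‖U K lam s‖ ^ 2 + ‖N (Hup K) R κ lam s‖ ^ 2 -
      2 * (U K lam s * (starRingEnd ℂ) (N (Hup K) R κ lam s)).re := by
    intro s
    rw [← Complex.normSq_eq_norm_sq, ← Complex.normSq_eq_norm_sq, ← Complex.normSq_eq_norm_sq,
      Complex.normSq_sub]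
  simp_rw [h1]
  have hre : Integrable (fun s => 2 * (U K lam s * (starRingEnd ℂ) (N (Hup K) R κ lam s)).re) :=
    hUN.re.const_mul 2
  have ha : ∫ s, (‖U K lam s‖ ^ 2 + ‖N (Hup K) R κ lam s‖ ^ 2 -
      2 * (U K lam s * (starRingEnd ℂ) (N (Hup K) R κ lam s)).re) =
      (∫ s, (‖U K lam s‖ ^ 2 + ‖N (Hup K) R κ lam s‖ ^ 2)) -
      ∫ s, 2 * (U K lam s * (starRingEnd ℂ) (N (Hup K) R κ lam s)).re := integral_sub (hU2.add hN2) hre
  have hb : ∫ s, (‖U K lam s‖ ^ 2 + ‖N (Hup K) R κ lam s‖ ^ 2) =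
      (∫ s, ‖U K lam s‖ ^ 2) + ∫ s, ‖N (Hup K) R κ lam s‖ ^ 2 := integral_add hU2 hN2
  rw [ha, hb, integral_const_mul]
  have h2 : ∫ s, (U K lam s * (starRingEnd ℂ) (N (Hup K) R κ lam s)).re =
      (∫ s, U K lam s * (starRingEnd ℂ) (N (Hup K) R κ lam s)).re := by
    exact integral_re hUN
  rw [h2]
  have h3 := (Complex.abs_re_le_norm _).trans hC
  rw [Complex.sub_re, Complex.ofReal_re] at h3
  have h4 := (abs_le.mp h3).1
  have h5 := integral_U_sq_le (K := K) hK.compact hl0
  linarith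

theorem memLp_diff (hH : PosC2 H) (hκ : 0 < κ) (hl : 1 ≤ lam) :
    MemLp (fun s => Complex.exp (Complex.I * lam * (H s : ℂ)) * N H R κ lam s -
      (gg H R s : ℂ) * gam κ (D H s)) 2 := by
  obtain ⟨C, hC, hdom⟩ := exists_dom (R := R) hH hκ
  have hm : StronglyMeasurable (fun s => Complex.exp (Complex.I * lam * (H s : ℂ)) * N H R κ lam s -
      (gg H R s : ℂ) * gam κ (D H s)) := by
    have h1 := (continuous_phase_mul hH lam).stronglyMeasurable
    have h2 := sm_N hH R κ lam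
    have h3 := sm_gam hH κ
    have h4 : StronglyMeasurable (fun s => (gg H R s : ℂ)) :=
      (Complex.continuous_ofReal.comp (continuous_gg hH)).stronglyMeasurable
    exact (h1.mul h2).sub (h4.mul h3)
  rw [memLp_two_iff_integrable_sq_norm hm.aestronglyMeasurable]
  apply (integrable_gauss_sq hκ (2 * C)).mono' (hm.norm.pow 2).aestronglyMeasurable
  refine Eventually.of_forall fun s => ?_
  change ‖‖Complex.exp (Complex.I * lam * (H s : ℂ)) * N H R κ lam s -
      (gg H R s : ℂ) * gam κ (D H s)‖ ^ 2‖ ≤ _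
  rw [norm_pow, norm_norm]
  apply pow_le_pow_left₀ (norm_nonneg _)
  have h1 : ‖Complex.exp (Complex.I * lam * (H s : ℂ))‖ = 1 := by
    rw [Complex.norm_exp]; simp
  calc _ ≤ _ := norm_sub_le _ _
    _ ≤ C * Real.exp (-(κ / 8) * ‖s‖ ^ 2) + C * Real.exp (-(κ / 8) * ‖s‖ ^ 2) := by
      apply add_le_add
      · rw [norm_mul, h1, one_mul]; exact hdom lam hl s
      · exact norm_gg_gam_le hH hκ hdom s
    _ = _ := by ring

theorem memLp_kappa (hH : PosC2 H) (hJ : Integrable (J H)) (hκ : 0 < κ) :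
    MemLp (fun s => (J H s : ℂ) * gam κ (D H s) -
      Complex.exp (Complex.I * (Real.pi * d / 4 : ℝ)) * (Real.sqrt (J H s) : ℂ)) 2 := by
  have hm : StronglyMeasurable (fun s => (J H s : ℂ) * gam κ (D H s) -
      Complex.exp (Complex.I * (Real.pi * d / 4 : ℝ)) * (Real.sqrt (J H s) : ℂ)) := by
    have h3 := sm_gam hH κ
    have h4 : StronglyMeasurable (fun s => (J H s : ℂ)) :=
      (Complex.continuous_ofReal.comp (cont_J hH)).stronglyMeasurable
    have h5 : StronglyMeasurable (fun s => Complex.exp (Complex.I * (Real.pi * d / 4 : ℝ)) * (Real.sqrt (J H s) : ℂ)) := by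
      apply Continuous.stronglyMeasurable
      have := cont_J hH
      fun_prop
    exact (h4.mul h3).sub h5
  rw [memLp_two_iff_integrable_sq_norm hm.aestronglyMeasurable]
  apply (hJ.const_mul 4).mono' (hm.norm.pow 2).aestronglyMeasurable
  refine Eventually.of_forall fun s => ?_
  change ‖‖(J H s : ℂ) * gam κ (D H s) -
      Complex.exp (Complex.I * (Real.pi * d / 4 : ℝ)) * (Real.sqrt (J H s) : ℂ)‖ ^ 2‖ ≤ _
  rw [norm_pow, norm_norm]
  have hJ0 := J_pos hH s
  have h1 := norm_gam_sq_le hκ (D H s) (D_symm hH s) (hH.2 s)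
  rw [← hess_eq_matB] at h1
  have h2 : ‖(J H s : ℂ) * gam κ (D H s)‖ ≤ Real.sqrt (J H s) := by
    apply Real.le_sqrt_of_sq_le
    rw [norm_mul, Complex.norm_of_nonneg hJ0.le, mul_pow]
    calc J H s ^ 2 * ‖gam κ (D H s)‖ ^ 2 = J H s * (‖gam κ (D H s)‖ ^ 2 * J H s) := by ring
      _ ≤ J H s * 1 := mul_le_mul_of_nonneg_left h1 hJ0.le
      _ = J H s := mul_one _
  have h3 : ‖Complex.exp (Complex.I * (Real.pi * d / 4 : ℝ)) * (Real.sqrt (J H s) : ℂ)‖ = Real.sqrt (J H s) := by
    rw [norm_mul, Complex.norm_exp, Complex.norm_of_nonneg (Real.sqrt_nonneg _)]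
    simp
  calc _ ≤ (Real.sqrt (J H s) + Real.sqrt (J H s)) ^ 2 := by
        apply pow_le_pow_left₀ (norm_nonneg _)
        apply (norm_sub_le _ _).trans
        exact add_le_add h2 h3.le
    _ = 4 * Real.sqrt (J H s) ^ 2 := by ring
    _ = 4 * J H s := by rw [Real.sq_sqrt hJ0.le]

theorem enorm_sq_three (a b c : ℂ) : ‖a + b + c‖ₑ ^ 2 ≤ 3 * (‖a‖ₑ ^ 2 + ‖b‖ₑ ^ 2 + ‖c‖ₑ ^ 2) := by
  have h : ‖a + b + c‖ ^ 2 ≤ 3 * (‖a‖ ^ 2 + ‖b‖ ^ 2 + ‖c‖ ^ 2) := by
    have h1 : ‖a + b + c‖ ≤ ‖a‖ + ‖b‖ + ‖c‖ := norm_add₃_le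
    have h2 : ‖a + b + c‖ ^ 2 ≤ (‖a‖ + ‖b‖ + ‖c‖) ^ 2 := pow_le_pow_left₀ (norm_nonneg _) h1 2
    nlinarith [sq_nonneg (‖a‖ - ‖b‖), sq_nonneg (‖a‖ - ‖c‖), sq_nonneg (‖b‖ - ‖c‖)]
  have h2 := ENNReal.ofReal_le_ofReal h
  rw [ENNReal.ofReal_mul (by norm_num), ENNReal.ofReal_add (by positivity) (by positivity),
    ENNReal.ofReal_add (by positivity) (by positivity), ENNReal.ofReal_pow (norm_nonneg _),
    ENNReal.ofReal_pow (norm_nonneg _), ENNReal.ofReal_pow (norm_nonneg _), ENNReal.ofReal_pow (norm_nonneg _),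
    ofReal_norm, ofReal_norm, ofReal_norm, ofReal_norm] at h2
  simpa using h2

/-- Averaged asymptotics of the oscillatory integral. -/
theorem U_tendsto (hK : IsBody K) (hH : PosC2 (Hup K)) {B : Set (V d)} (hB : Bornology.IsBounded B)
    (hBm : MeasurableSet B) :
    Tendsto (fun lam : ℝ => ∫⁻ s in B, ‖U K lam s - MM (Hup K) lam s‖ₑ ^ 2) atTop (𝓝 0) := by
  set H := Hup K with hHdef
  have hJ : Integrable (J H) := integrable_J hK hH
  have key : ∀ η : ℝ, 0 < η → ∀ᶠ lam : ℝ in atTop,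
      ∫⁻ s in B, ‖U K lam s - MM H lam s‖ₑ ^ 2 ≤ ENNReal.ofReal (15 * η) := by
    intro η hη
    -- choice of R
    obtain ⟨R, hR1, hR2⟩ : ∃ R : ℝ, B ⊆ Metric.closedBall 0 R ∧ (∫ s, J H s) - η ≤ ∫ s, gg H R s := by
      obtain ⟨R0, hR0⟩ := hB.subset_closedBall 0
      have h1 := tendsto_gg hH hJ
      have h2 : ∀ᶠ R : ℝ in atTop, (∫ s, J H s) - η < ∫ s, gg H R s :=
        h1.eventually (lt_mem_nhds (by linarith))
      obtain ⟨R, h3, h4⟩ := (h2.and (eventually_ge_atTop R0)).exists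
      exact ⟨R, hR0.trans (Metric.closedBall_subset_closedBall h4), h3.le⟩
    obtain ⟨C, hC0, hC⟩ := pairing_bound hK hH R
    -- choice of κ
    obtain ⟨κ, hκ0, hκ1, hκ2⟩ : ∃ κ : ℝ, 0 < κ ∧ 2 * (C * κ) ≤ η ∧
        ∫ s in B, ‖(J H s : ℂ) * gam κ (D H s) -
          Complex.exp (Complex.I * (Real.pi * d / 4 : ℝ)) * (Real.sqrt (J H s) : ℂ)‖ ^ 2 ≤ η := by
      have h1 := tendsto_kappa hH hJ B
      have h2 := h1.eventually (gt_mem_nhds hη)
      have h3 : Tendsto (fun κ : ℝ => 2 * (C * κ)) (𝓝[>] 0) (𝓝 0) := by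
        have : Tendsto (fun κ : ℝ => 2 * (C * κ)) (𝓝 0) (𝓝 (2 * (C * 0))) := by
          apply Continuous.tendsto; fun_prop
        rw [mul_zero, mul_zero] at this
        exact this.mono_left nhdsWithin_le_nhds
      have h4 := h3.eventually (gt_mem_nhds hη)
      have h5 : ∀ᶠ κ : ℝ in 𝓝[>] 0, 0 < κ := self_mem_nhdsWithin
      obtain ⟨κ, h6, h7, h8⟩ := (h5.and (h4.and h2)).exists
      exact ⟨κ, h6, h7.le, h8.le⟩
    -- large lam
    have e1 : ∀ᶠ lam : ℝ in atTop, (∫ s, ‖N H R κ lam s‖ ^ 2) < (∫ s, gg H R s) + η := by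
      have hlt : (∫ s, ‖(gg H R s : ℂ) * gam κ (D H s)‖ ^ 2) < (∫ s, gg H R s) + η := by
        have := integral_gg_gam_le (R := R) hH hκ0
        linarith
      exact (tendsto_normN (R := R) hH hκ0).eventually (gt_mem_nhds hlt)
    have e2 : ∀ᶠ lam : ℝ in atTop, (∫ s, ‖Complex.exp (Complex.I * lam * (H s : ℂ)) * N H R κ lam s -
      (gg H R s : ℂ) * gam κ (D H s)‖ ^ 2) < η :=
      (tendsto_L2 (R := R) hH hκ0).eventually (gt_mem_nhds hη)
    filter_upwards [e1, e2, eventually_ge_atTop 1] with lam h1 h2 h3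
    have hl0 : 0 < lam := by linarith
    have h4 := norm_U_sub_N (R := R) hK hH hκ0 h3 (hC κ hκ0 lam h3)
    rw [← integral_J hK hH] at h4
    have h5 : ∫ s, ‖U K lam s - N H R κ lam s‖ ^ 2 ≤ 3 * η := by
      linarith
    -- the three functions
    have m1 : MemLp (fun s => U K lam s - N H R κ lam s) 2 := (memLp_U hK.compact hl0).sub (memLp_N hH hκ0 h3)
    have m2 := memLp_diff (R := R) hH hκ0 h3
    have m3 := memLp_kappa hH hJ hκ0
    have l1 := lintegral_sq_eq (m1.restrict B)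
    have l2 := lintegral_sq_eq (m2.restrict B)
    have l3 := lintegral_sq_eq (m3.restrict B)
    have b1 : ∫ s in B, ‖U K lam s - N H R κ lam s‖ ^ 2 ≤ 3 * η := by
      apply le_trans _ h5
      exact setIntegral_le_integral ((memLp_two_iff_integrable_sq_norm m1.1).mp m1)
        (Eventually.of_forall fun s => by positivity)
    have b2 : ∫ s in B, ‖Complex.exp (Complex.I * lam * (H s : ℂ)) * N H R κ lam s -
      (gg H R s : ℂ) * gam κ (D H s)‖ ^ 2 ≤ η := by
      apply le_trans _ h2.le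
      exact setIntegral_le_integral ((memLp_two_iff_integrable_sq_norm m2.1).mp m2)
        (Eventually.of_forall fun s => by positivity)
    calc ∫⁻ s in B, ‖U K lam s - MM H lam s‖ₑ ^ 2
        ≤ ∫⁻ s in B, 3 * (‖U K lam s - N H R κ lam s‖ₑ ^ 2 +
          ‖Complex.exp (Complex.I * lam * (H s : ℂ)) * N H R κ lam s - (gg H R s : ℂ) * gam κ (D H s)‖ₑ ^ 2 +
          ‖(J H s : ℂ) * gam κ (D H s) -
          Complex.exp (Complex.I * (Real.pi * d / 4 : ℝ)) * (Real.sqrt (J H s) : ℂ)‖ₑ ^ 2) := by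
          apply setLIntegral_mono' hBm
          intro s hs
          have hgJ : gg H R s = J H s := by
            unfold gg
            rw [cut_eq_one, one_mul]
            have := hR1 hs
            rwa [mem_closedBall_zero_iff] at this
          have hph : ‖Complex.exp (-Complex.I * lam * (H s : ℂ))‖ₑ = 1 := by
            rw [← ofReal_norm, Complex.norm_exp]; simp
          have hph2 : Complex.exp (-Complex.I * lam * (H s : ℂ)) * Complex.exp (Complex.I * lam * (H s : ℂ)) = 1 := by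
            rw [← Complex.exp_add]
            have : -Complex.I * lam * (H s : ℂ) + Complex.I * lam * (H s : ℂ) = 0 := by ring
            rw [this, Complex.exp_zero]
          have hdec : U K lam s - MM H lam s = (U K lam s - N H R κ lam s) +
              Complex.exp (-Complex.I * lam * (H s : ℂ)) *
                (Complex.exp (Complex.I * lam * (H s : ℂ)) * N H R κ lam s - (gg H R s : ℂ) * gam κ (D H s)) +
              Complex.exp (-Complex.I * lam * (H s : ℂ)) * ((J H s : ℂ) * gam κ (D H s) -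
                Complex.exp (Complex.I * (Real.pi * d / 4 : ℝ)) * (Real.sqrt (J H s) : ℂ)) := by
            rw [hgJ]
            unfold MM
            linear_combination (- N H R κ lam s) * hph2
          rw [hdec]
          apply (enorm_sq_three _ _ _).trans
          rw [enorm_mul, enorm_mul, hph, one_mul, one_mul]
      _ ≤ ENNReal.ofReal (15 * η) := by
          rw [lintegral_const_mul' _ _ (by norm_num), lintegral_add_left', lintegral_add_left', l1, l2, l3]
          · rw [← ENNReal.ofReal_add (by positivity) (by positivity),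
              ← ENNReal.ofReal_add (by positivity) (by positivity)]
            have : (3 : ENNReal) = ENNReal.ofReal 3 := by simp
            rw [this, ← ENNReal.ofReal_mul (by norm_num)]
            apply ENNReal.ofReal_le_ofReal
            linarith
          · exact ((m1.1.restrict).enorm.pow_const 2)
          · exact ((m1.1.restrict).enorm.pow_const 2).add ((m2.1.restrict).enorm.pow_const 2)
  rw [ENNReal.tendsto_nhds_zero]
  intro ε hε
  by_cases htop : ε = ⊤
  · rw [htop]; exact Eventually.of_forall fun _ => le_top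
  · have h1 := key (ε.toReal / 15) (by
      have := ENNReal.toReal_pos hε.ne' htop
      positivity)
    filter_upwards [h1] with lam h2
    apply h2.trans
    have : 15 * (ε.toReal / 15) = ε.toReal := by ring
    rw [this, ENNReal.ofReal_toReal htop]

end

end Pool.Agent.Helper28.Cov
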