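import Pool.Agent.Helper28.Cov.Main

/-!
Covariogram problem, Module B (helper28): the two interface theorems.
-/

open MeasureTheory Set Filter Topology
open scoped Pointwise

namespace Pool.Agent.Helper28.Cov

open Pool.Agent.Helper77.Cov

section
variable {d : ℕ} {K : Set (V d × ℝ)}

theorem Hup_neg (K : Set (V d × ℝ)) : Hup (-K) = Hdn K := by
  ext s
  unfold Hup Hdn suppP
  congr 1
  ext r
  constructor
  · rintro ⟨p, hp, rfl⟩
    refine ⟨-p, by simpa using hp, ?_⟩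
    simp
  · rintro ⟨p, hp, rfl⟩
    refine ⟨-p, by simpa using hp, ?_⟩
    simp

theorem mainT_eq (K : Set (V d × ℝ)) (s : V d) (lam : ℝ) :
    mainT K s lam = Complex.I * (MM (Hup K) lam s - (starRingEnd ℂ) (MM (Hdn K) lam s)) := by
  unfold mainT MM J
  have h1 : (starRingEnd ℂ) (Complex.exp (Complex.I * (Real.pi * d / 4 : ℝ)) * (Real.sqrt ((hess (Hdn K) s).det) : ℂ) *
      Complex.exp (-Complex.I * lam * (Hdn K s : ℂ))) =
      Complex.exp (-Complex.I * (Real.pi * d / 4 : ℝ)) * (Real.sqrt ((hess (Hdn K) s).det) : ℂ) *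
      Complex.exp (Complex.I * lam * (Hdn K s : ℂ)) := by
    rw [map_mul, map_mul, ← Complex.exp_conj, ← Complex.exp_conj, Complex.conj_ofReal]
    simp only [map_mul, map_neg, Complex.conj_I, Complex.conj_ofReal, neg_neg]
  rw [h1]

theorem enorm_sq_two (a b : ℂ) :
    ‖Complex.I * (a - (starRingEnd ℂ) b)‖ₑ ^ 2 ≤ 2 * (‖a‖ₑ ^ 2 + ‖b‖ₑ ^ 2) := by
  have h : ‖Complex.I * (a - (starRingEnd ℂ) b)‖ ^ 2 ≤ 2 * (‖a‖ ^ 2 + ‖b‖ ^ 2) := by
    rw [norm_mul, Complex.norm_I, one_mul]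
    have h1 : ‖a - (starRingEnd ℂ) b‖ ≤ ‖a‖ + ‖b‖ := by
      apply (norm_sub_le _ _).trans
      rw [RCLike.norm_conj]
    have h2 := pow_le_pow_left₀ (norm_nonneg _) h1 2
    nlinarith [sq_nonneg (‖a‖ - ‖b‖)]
  have h2 := ENNReal.ofReal_le_ofReal h
  rw [ENNReal.ofReal_mul (by norm_num), ENNReal.ofReal_add (by positivity) (by positivity),
    ENNReal.ofReal_pow (norm_nonneg _), ENNReal.ofReal_pow (norm_nonneg _), ENNReal.ofReal_pow (norm_nonneg _),
    ofReal_norm, ofReal_norm, ofReal_norm] at h2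
  simpa using h2

theorem aesm_MM {H : V d → ℝ} (hH : PosC2 H) (lam : ℝ) : AEStronglyMeasurable (MM H lam) := by
  apply Continuous.aestronglyMeasurable
  unfold MM
  have h1 := cont_J hH
  have h2 := cont_H hH
  fun_prop

/-- **Module B** (averaged asymptotics of the Fourier transform of a convex body). -/
theorem averaged_asymptotics {d : ℕ} {K : Set (V d × ℝ)} (hK : IsBody K)
    (hup : PosC2 (Hup K)) (hdn : PosC2 (Hdn K)) {B : Set (V d)} (hB : Bornology.IsBounded B)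
    (hBm : MeasurableSet B) :
    Tendsto (fun lam : ℝ => ∫⁻ σ in B, ‖(nrm d lam : ℂ) * fT K σ lam - mainT K σ lam‖ₑ ^ 2)
      atTop (𝓝 0) := by
  have hK' := isBody_neg hK
  have hup' : PosC2 (Hup (-K)) := by rw [Hup_neg]; exact hdn
  have h1 := U_tendsto hK hup hB hBm
  have h2 := U_tendsto hK' hup' hB hBm
  have h3 : Tendsto (fun lam : ℝ => 2 * ((∫⁻ s in B, ‖U K lam s - MM (Hup K) lam s‖ₑ ^ 2) +
      ∫⁻ s in B, ‖U (-K) lam s - MM (Hup (-K)) lam s‖ₑ ^ 2)) atTop (𝓝 0) := by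
    have := ENNReal.Tendsto.const_mul (h1.add h2) (Or.inr (by norm_num : (2 : ENNReal) ≠ ⊤))
    simpa using this
  refine tendsto_of_tendsto_of_tendsto_of_le_of_le' tendsto_const_nhds h3
    (Eventually.of_forall fun _ => bot_le) ?_
  filter_upwards [eventually_gt_atTop 0] with lam hl
  have hmeas : AEMeasurable (fun s => ‖U K lam s - MM (Hup K) lam s‖ₑ ^ 2) (volume.restrict B) :=
    ((((aesm_U hK.compact lam).sub (aesm_MM hup lam)).restrict).enorm.pow_const 2)
  rw [← lintegral_add_left' hmeas, ← lintegral_const_mul' _ _ (by norm_num)]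
  apply setLIntegral_mono' hBm
  intro s _
  have hdec : (nrm d lam : ℂ) * fT K s lam - mainT K s lam = Complex.I *
      ((U K lam s - MM (Hup K) lam s) - (starRingEnd ℂ) (U (-K) lam s - MM (Hup (-K)) lam s)) := by
    rw [nrm_fT_eq hK hl.ne', mainT_eq, Hup_neg, map_sub]
    ring
  rw [hdec]
  exact enorm_sq_two _ _

/-- **Module B, part 2** (uniform bound by Plancherel). -/
theorem fT_l2_bound {d : ℕ} {K : Set (V d × ℝ)} (hK : IsBody K) :
    ∃ C : NNReal, ∀ lam : ℝ, 0 < lam →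
      ∫⁻ σ : V d, ‖(nrm d lam : ℂ) * fT K σ lam‖ₑ ^ 2 ≤ C := by
  have hK' := isBody_neg hK
  have hfin : 2 * (volume (Kp K) + volume (Kp (-K))) ≠ ⊤ := by
    apply ENNReal.mul_ne_top (by norm_num)
    exact ENNReal.add_ne_top.mpr ⟨(isCompact_Kp hK.compact).measure_lt_top.ne,
      (isCompact_Kp hK'.compact).measure_lt_top.ne⟩
  refine ⟨(2 * (volume (Kp K) + volume (Kp (-K)))).toNNReal, ?_⟩
  intro lam hl
  rw [ENNReal.coe_toNNReal hfin]
  calc ∫⁻ σ : V d, ‖(nrm d lam : ℂ) * fT K σ lam‖ₑ ^ 2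
      ≤ ∫⁻ σ : V d, 2 * (‖U K lam σ‖ₑ ^ 2 + ‖U (-K) lam σ‖ₑ ^ 2) := by
        apply lintegral_mono
        intro s
        simp only
        rw [nrm_fT_eq hK hl.ne']
        exact enorm_sq_two _ _
    _ = 2 * ((∫⁻ s, ‖U K lam s‖ₑ ^ 2) + ∫⁻ s, ‖U (-K) lam s‖ₑ ^ 2) := by
        rw [lintegral_const_mul' _ _ (by norm_num), lintegral_add_left' ((aesm_U hK.compact lam).enorm.pow_const 2)]
    _ ≤ _ := by
        gcongr
        · exact bessel_U hK.compact hl
        · exact bessel_U hK'.compact hl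

end

end Pool.Agent.Helper28.Cov
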