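import Pool.Agent.Helper28.Cov.Supp

/-!
Covariogram problem, Module B (helper28): superpositions of Gaussian wave packets.
-/

open MeasureTheory Set Filter Topology

namespace Pool.Agent.Helper28.Cov

open Pool.Agent.Helper77.Cov

/-- Cutoff function. -/
noncomputable def cut {d : ℕ} (R : ℝ) (t : V d) : ℝ := max 0 (min 1 (R + 1 - ‖t‖))

/-- Cut off Jacobian. -/
noncomputable def gg {d : ℕ} (H : V d → ℝ) (R : ℝ) (t : V d) : ℝ := cut R t * J H t

/-- Wave packet. -/
noncomputable def pk {d : ℕ} (H : V d → ℝ) (κ lam : ℝ) (s t : V d) : ℂ :=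
  Complex.exp (-Complex.I * lam * ((H t + inner ℝ (s - t) (X H t) : ℝ) : ℂ) -
    ((lam * κ / 2 * ‖t - s‖ ^ 2 : ℝ) : ℂ))

/-- Superposition of wave packets. -/
noncomputable def N {d : ℕ} (H : V d → ℝ) (R κ lam : ℝ) (s : V d) : ℂ :=
  (cst d lam : ℂ) * ∫ t, (gg H R t : ℂ) * pk H κ lam s t

section
variable {d : ℕ} {H : V d → ℝ} {R κ lam : ℝ}

theorem cut_nonneg (t : V d) : 0 ≤ cut R t := le_max_left _ _

theorem cut_le_one (t : V d) : cut R t ≤ 1 := max_le zero_le_one (min_le_left _ _)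

theorem cut_eq_one {t : V d} (ht : ‖t‖ ≤ R) : cut R t = 1 := by
  unfold cut
  rw [min_eq_left (by linarith), max_eq_right zero_le_one]

theorem cut_eq_zero {t : V d} (ht : R + 1 ≤ ‖t‖) : cut R t = 0 := by
  unfold cut
  rw [max_eq_left]
  exact (min_le_right _ _).trans (by linarith)

theorem continuous_cut : Continuous (cut (d := d) R) := by
  unfold cut; fun_prop

theorem gg_nonneg (hH : PosC2 H) (t : V d) : 0 ≤ gg H R t :=
  mul_nonneg (cut_nonneg t) (J_pos hH t).le

theorem gg_le (hH : PosC2 H) (t : V d) : gg H R t ≤ J H t := by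
  unfold gg
  have := cut_le_one (R := R) t
  nlinarith [(J_pos hH t)]

theorem gg_eq_zero {t : V d} (ht : R + 1 ≤ ‖t‖) : gg H R t = 0 := by
  unfold gg; rw [cut_eq_zero ht, zero_mul]

theorem continuous_gg (hH : PosC2 H) : Continuous (gg H R) :=
  continuous_cut.mul (cont_J hH)

theorem exists_gg_bound (hH : PosC2 H) (R : ℝ) : ∃ M : ℝ, 0 < M ∧ ∀ t, gg H R t ≤ M := by
  obtain ⟨C, hC⟩ := ((isCompact_closedBall (0 : V d) (R + 1)).image (cont_J hH)).bddAbove
  refine ⟨max C 1, by positivity, ?_⟩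
  intro t
  by_cases ht : R + 1 ≤ ‖t‖
  · rw [gg_eq_zero ht]; positivity
  · apply (gg_le hH t).trans
    apply le_trans _ (le_max_left _ _)
    apply hC
    apply mem_image_of_mem
    rw [mem_closedBall_zero_iff]
    exact (not_le.mp ht).le

theorem hasCompactSupport_gg : HasCompactSupport (gg H R) := by
  apply HasCompactSupport.intro (isCompact_closedBall (0 : V d) (R + 1))
  intro t ht
  apply gg_eq_zero
  rw [mem_closedBall_zero_iff, not_le] at ht
  exact ht.le

theorem integrable_gg (hH : PosC2 H) : Integrable (gg H R) :=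
  (continuous_gg hH).integrable_of_hasCompactSupport hasCompactSupport_gg

theorem norm_pk (s t : V d) : ‖pk H κ lam s t‖ = Real.exp (-(lam * κ / 2) * ‖t - s‖ ^ 2) := by
  unfold pk
  rw [Complex.norm_exp]
  congr 1
  simp only [Complex.sub_re, Complex.mul_re, Complex.neg_re, Complex.I_re, neg_zero, Complex.ofReal_re,
    zero_mul, Complex.neg_im, Complex.I_im, Complex.ofReal_im, mul_zero, sub_zero, Complex.mul_im]
  ring

theorem continuous_pk (hH : PosC2 H) (κ lam : ℝ) :
    Continuous (fun p : V d × V d => pk H κ lam p.1 p.2) := by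
  unfold pk
  have h1 := cont_H hH
  have h2 := cont_X hH
  have h3 : Continuous (fun p : V d × V d => inner ℝ (p.1 - p.2) (X H p.2)) :=
    (continuous_fst.sub continuous_snd).inner (h2.comp continuous_snd)
  fun_prop

theorem pk_shift (hH : PosC2 H) (hl : 0 < lam) (s v : V d) :
    ∃ ξ ∈ Ioo (0 : ℝ) 1, Complex.exp (Complex.I * lam * (H s : ℂ)) * pk H κ lam s (s + (Real.sqrt lam)⁻¹ • v) =
      Complex.exp (Complex.I / 2 * ((D H (s + (ξ * (Real.sqrt lam)⁻¹) • v) v v : ℝ) : ℂ) -
        ((κ / 2 : ℝ) : ℂ) * ((‖v‖ ^ 2 : ℝ) : ℂ)) := by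
  set r := (Real.sqrt lam)⁻¹ with hr
  have hr2 : r ^ 2 * lam = 1 := by
    rw [hr, inv_pow, Real.sq_sqrt hl.le]; field_simp
  obtain ⟨ξ, hξ, h⟩ := taylor2 hH (s + r • v) (-(r • v))
  refine ⟨1 - ξ, ⟨by linarith [hξ.2], by linarith [hξ.1]⟩, ?_⟩
  rw [add_neg_cancel_right, ← inner_X, inner_neg_right] at h
  have h2 : s + r • v + ξ • (-(r • v)) = s + ((1 - ξ) * r) • v := by
    rw [smul_neg, smul_smul, sub_mul, sub_smul, one_mul]; abel
  rw [h2] at h
  have h3 : D H (s + ((1 - ξ) * r) • v) (-(r • v)) (-(r • v)) =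
      r ^ 2 * D H (s + ((1 - ξ) * r) • v) v v := by
    simp only [map_neg, map_smul, neg_apply, smul_apply, smul_eq_mul]
    ring
  rw [h3] at h
  unfold pk
  rw [← Complex.exp_add]
  congr 1
  have h4 : s - (s + r • v) = -(r • v) := by abel
  have h5 : s + r • v - s = r • v := by abel
  rw [h4, h5, inner_neg_left, norm_smul, real_inner_comm]
  have h6 : ‖r‖ ^ 2 = r ^ 2 := by rw [Real.norm_eq_abs, sq_abs]
  have h7 : lam * κ / 2 * (‖r‖ * ‖v‖) ^ 2 = κ / 2 * ‖v‖ ^ 2 := by
    rw [mul_pow, h6]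
    calc lam * κ / 2 * (r ^ 2 * ‖v‖ ^ 2) = (r ^ 2 * lam) * (κ / 2 * ‖v‖ ^ 2) := by ring
      _ = _ := by rw [hr2, one_mul]
  rw [h7]
  have h8 : lam * (H s - H (s + r • v) + inner ℝ (X H (s + r • v)) (r • v)) =
      D H (s + ((1 - ξ) * r) • v) v v / 2 := by
    have : H s - H (s + r • v) + inner ℝ (X H (s + r • v)) (r • v) = r ^ 2 * D H (s + ((1 - ξ) * r) • v) v v / 2 := by
      linarith
    rw [this]
    calc lam * (r ^ 2 * D H (s + ((1 - ξ) * r) • v) v v / 2) = (r ^ 2 * lam) * (D H (s + ((1 - ξ) * r) • v) v v / 2) := by ring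
      _ = _ := by rw [hr2, one_mul]
  have h9 : Complex.I * lam * (H s : ℂ) + -Complex.I * lam * ((H (s + r • v) + -inner ℝ (X H (s + r • v)) (r • v) : ℝ) : ℂ) =
      Complex.I * ((lam * (H s - H (s + r • v) + inner ℝ (X H (s + r • v)) (r • v)) : ℝ) : ℂ) := by
    push_cast; ring
  rw [add_sub_assoc', h9, h8]
  push_cast; ring

theorem N_eq (hl : 0 < lam) (s : V d) :
    N H R κ lam s = (cst d 1 : ℂ) * ∫ v, (gg H R (s + (Real.sqrt lam)⁻¹ • v) : ℂ) *
      pk H κ lam s (s + (Real.sqrt lam)⁻¹ • v) := by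
  have := scaling (d := d) hl (fun t => (gg H R t : ℂ) * pk H κ lam s t) s
  rw [Complex.real_smul, Complex.real_smul] at this
  exact this

/-- Pointwise limit of the superposition of wave packets. -/
theorem tendsto_N (hH : PosC2 H) (hκ : 0 < κ) (s : V d) :
    Tendsto (fun lam : ℝ => Complex.exp (Complex.I * lam * (H s : ℂ)) * N H R κ lam s) atTop
      (𝓝 ((gg H R s : ℂ) * gam κ (D H s))) := by
  obtain ⟨M, hM, hMb⟩ := exists_gg_bound hH R
  have h1 : (gg H R s : ℂ) * gam κ (D H s) = (cst d 1 : ℂ) * ∫ v, (gg H R s : ℂ) *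
      Complex.exp (Complex.I / 2 * ((D H s v v : ℝ) : ℂ) - ((κ / 2 : ℝ) : ℂ) * ((‖v‖ ^ 2 : ℝ) : ℂ)) := by
    unfold gam
    rw [integral_const_mul]; ring
  rw [h1]
  have h2 : ∀ᶠ lam : ℝ in atTop, (cst d 1 : ℂ) * ∫ v, (gg H R (s + (Real.sqrt lam)⁻¹ • v) : ℂ) *
      (Complex.exp (Complex.I * lam * (H s : ℂ)) * pk H κ lam s (s + (Real.sqrt lam)⁻¹ • v)) =
      Complex.exp (Complex.I * lam * (H s : ℂ)) * N H R κ lam s := by
    filter_upwards [eventually_gt_atTop 0] with lam hl
    rw [N_eq hl, mul_left_comm]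
    congr 1
    rw [← integral_const_mul]
    apply integral_congr_ae
    refine Eventually.of_forall fun v => ?_
    simp only
    ring
  refine Tendsto.congr' h2 ?_
  apply Tendsto.const_mul
  have hsq : Tendsto (fun lam : ℝ => (Real.sqrt lam)⁻¹) atTop (𝓝 0) :=
    tendsto_inv_atTop_zero.comp Real.tendsto_sqrt_atTop
  apply tendsto_integral_filter_of_dominated_convergence (fun v => M * Real.exp (-(κ / 2) * ‖v‖ ^ 2))
  · filter_upwards with lam
    apply Continuous.aestronglyMeasurable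
    have h3 : Continuous (fun v : V d => s + (Real.sqrt lam)⁻¹ • v) := by fun_prop
    have h4 : Continuous (fun v : V d => pk H κ lam s (s + (Real.sqrt lam)⁻¹ • v)) :=
      (continuous_pk hH κ lam).comp (continuous_const.prodMk h3)
    have h5 : Continuous (fun v : V d => gg H R (s + (Real.sqrt lam)⁻¹ • v)) := (continuous_gg hH).comp h3
    fun_prop
  · filter_upwards [eventually_gt_atTop 0] with lam hl
    refine Eventually.of_forall fun v => ?_
    obtain ⟨ξ, hξ, h⟩ := pk_shift (κ := κ) hH hl s v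
    rw [h, norm_mul, Complex.norm_of_nonneg (gg_nonneg hH _), Complex.norm_exp]
    apply mul_le_mul (hMb _) _ (Real.exp_pos _).le hM.le
    apply le_of_eq
    congr 1
    simp only [Complex.sub_re, Complex.mul_re, Complex.ofReal_re, Complex.ofReal_im, mul_zero, sub_zero]
    simp
  · exact (integrable_gauss hκ).const_mul M
  · refine Eventually.of_forall fun v => ?_
    apply Tendsto.mul
    · have h3 : Tendsto (fun lam : ℝ => s + (Real.sqrt lam)⁻¹ • v) atTop (𝓝 s) := by
        have := (hsq.smul_const v).const_add s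
        simpa using this
      exact (Complex.continuous_ofReal.tendsto _).comp (((continuous_gg hH).tendsto s).comp h3)
    · choose! ξ hξ h using fun (lam : ℝ) (hl : 0 < lam) => pk_shift (κ := κ) hH hl s v
      have h3 : ∀ᶠ lam : ℝ in atTop, Complex.exp (Complex.I / 2 * ((D H (s + (ξ lam * (Real.sqrt lam)⁻¹) • v) v v : ℝ) : ℂ) -
        ((κ / 2 : ℝ) : ℂ) * ((‖v‖ ^ 2 : ℝ) : ℂ)) = Complex.exp (Complex.I * lam * (H s : ℂ)) * pk H κ lam s (s + (Real.sqrt lam)⁻¹ • v) := by
        filter_upwards [eventually_gt_atTop 0] with lam hl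
        exact (h lam hl).symm
      refine Tendsto.congr' h3 ?_
      have h4 : Tendsto (fun lam : ℝ => ξ lam * (Real.sqrt lam)⁻¹) atTop (𝓝 0) := by
        apply squeeze_zero_norm' _ hsq
        filter_upwards [eventually_gt_atTop 0] with lam hl
        rw [norm_mul, Real.norm_of_nonneg (hξ lam hl).1.le, Real.norm_of_nonneg (by positivity)]
        have : 0 ≤ (Real.sqrt lam)⁻¹ := by positivity
        nlinarith [(hξ lam hl).2]
      have h5 : Tendsto (fun lam : ℝ => s + (ξ lam * (Real.sqrt lam)⁻¹) • v) atTop (𝓝 s) := by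
        have := (h4.smul_const v).const_add s
        simpa using this
      have h6 : Continuous (fun x : V d => Complex.exp (Complex.I / 2 * ((D H x v v : ℝ) : ℂ) -
        ((κ / 2 : ℝ) : ℂ) * ((‖v‖ ^ 2 : ℝ) : ℂ))) := by
        have := ((cont_D hH).clm_apply (continuous_const (y := v))).clm_apply (continuous_const (y := v))
        fun_prop
      exact (h6.tendsto s).comp h5

end

end Pool.Agent.Helper28.Cov
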