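import Pool.Agent.Helper28.Cov.Dom
import Pool.Agent.Helper28.Cov.Bessel

/-!
Covariogram problem, Module B (helper28): pairing of the oscillatory integral with the packets.
-/

open MeasureTheory Set Filter Topology

namespace Pool.Agent.Helper28.Cov

open Pool.Agent.Helper77.Cov

section
variable {d : ℕ} {K : Set (V d × ℝ)} {R κ lam : ℝ}

/-- The amplitude of the oscillatory integral. -/
noncomputable def ff (K : Set (V d × ℝ)) (lam : ℝ) (x : V d) : ℂ :=
  (Kp K).indicator (fun x => Complex.exp (-Complex.I * lam * (topf K x : ℂ))) x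

theorem norm_ff_le (x : V d) : ‖ff K lam x‖ ≤ (Kp K).indicator (fun _ => (1 : ℝ)) x := by
  unfold ff
  by_cases hx : x ∈ Kp K
  · rw [indicator_of_mem hx, indicator_of_mem hx, Complex.norm_exp]; simp
  · rw [indicator_of_notMem hx, indicator_of_notMem hx]; simp

theorem norm_ff_sq (x : V d) : ‖ff K lam x‖ ^ 2 = (Kp K).indicator (fun _ => (1 : ℝ)) x := by
  unfold ff
  by_cases hx : x ∈ Kp K
  · rw [indicator_of_mem hx, indicator_of_mem hx, Complex.norm_exp]; simp
  · rw [indicator_of_notMem hx, indicator_of_notMem hx]; simp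

theorem measurable_ff (hK : IsCompact K) : Measurable (ff K lam) := by
  apply Measurable.indicator _ (isCompact_Kp hK).measurableSet
  have := measurable_topf hK
  fun_prop

theorem integrable_ind (hK : IsCompact K) : Integrable ((Kp K).indicator (fun _ => (1 : ℝ))) := by
  rw [integrable_indicator_iff (isCompact_Kp hK).measurableSet]
  exact integrableOn_const (isCompact_Kp hK).measure_lt_top.ne

theorem integrable_ff (hK : IsCompact K) : Integrable (ff K lam) :=
  (integrable_ind hK).mono' (measurable_ff hK).aestronglyMeasurable (Eventually.of_forall norm_ff_le)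

theorem integrable_ff_sq (hK : IsCompact K) : Integrable (fun x => ‖ff K lam x‖ ^ 2) := by
  simp_rw [norm_ff_sq]
  exact integrable_ind hK

theorem integral_ff_sq (hK : IsCompact K) : ∫ x, ‖ff K lam x‖ ^ 2 = (volume (Kp K)).toReal := by
  simp_rw [norm_ff_sq]
  rw [integral_indicator (isCompact_Kp hK).measurableSet]
  simp [Measure.real]

theorem U_eq (hK : IsCompact K) (s : V d) :
    U K lam s = (cst d lam : ℂ) * ∫ x, ff K lam x * ker lam s x := by
  unfold U
  congr 1
  rw [← integral_indicator (isCompact_Kp hK).measurableSet]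
  congr 1
  ext x
  unfold ff ker
  by_cases hx : x ∈ Kp K
  · rw [indicator_of_mem hx, indicator_of_mem hx, ← Complex.exp_add]
    congr 1
    push_cast; ring
  · rw [indicator_of_notMem hx, indicator_of_notMem hx, zero_mul]

theorem bessel_U (hK : IsCompact K) (hl : 0 < lam) :
    ∫⁻ s, ‖U K lam s‖ₑ ^ 2 ≤ volume (Kp K) := by
  simp_rw [U_eq hK]
  apply (bessel (integrable_ff hK) (integrable_ff_sq hK) hl).trans
  rw [integral_ff_sq hK, ENNReal.ofReal_toReal (isCompact_Kp hK).measure_lt_top.ne]

theorem aesm_U (hK : IsCompact K) (lam : ℝ) : AEStronglyMeasurable (U K lam) := by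
  have h0 : U K lam = fun s => (cst d lam : ℂ) * ∫ x, ff K lam x * ker lam s x := funext (U_eq hK)
  rw [h0]
  apply AEStronglyMeasurable.const_mul
  have h1 : AEStronglyMeasurable (fun p : V d × V d => ff K lam p.2 * ker lam p.1 p.2) (volume.prod volume) := by
    apply AEStronglyMeasurable.mul
    · exact (integrable_ff hK).aestronglyMeasurable.comp_snd
    · exact (continuous_ker lam).aestronglyMeasurable
  exact h1.integral_prod_right'

theorem memLp_U (hK : IsCompact K) (hl : 0 < lam) : MemLp (U K lam) 2 := by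
  refine ⟨aesm_U hK lam, ?_⟩
  rw [eLpNorm_lt_top_iff_lintegral_rpow_enorm_lt_top (by norm_num) (by norm_num)]
  have h := (bessel_U hK hl).trans_lt (isCompact_Kp hK).measure_lt_top
  simpa using h

theorem integral_U_sq_le (hK : IsCompact K) (hl : 0 < lam) :
    ∫ s, ‖U K lam s‖ ^ 2 ≤ (volume (Kp K)).toReal := by
  have hm : AEStronglyMeasurable (fun s => ‖U K lam s‖ ^ 2) := (aesm_U hK lam).norm.pow 2
  rw [integral_eq_lintegral_of_nonneg_ae (Eventually.of_forall fun s => by positivity) hm]
  apply ENNReal.toReal_mono (isCompact_Kp hK).measure_lt_top.ne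
  refine le_trans (le_of_eq ?_) (bessel_U hK hl)
  congr 1
  ext s
  rw [ENNReal.ofReal_pow (norm_nonneg _), ofReal_norm]

/-- Gaussian integral of kernel times packet. -/
theorem integral_ker_pk (H : V d → ℝ) (hl : 0 < lam) (hκ : 0 < κ) (x t : V d) :
    ∫ s, ker lam s x * (starRingEnd ℂ) (pk H κ lam s t) =
      Complex.exp (Complex.I * lam * ((H t - inner ℝ t x : ℝ) : ℂ)) *
        (((cst d (lam * κ))⁻¹ * Real.exp (-(lam / κ / 2) * ‖x - X H t‖ ^ 2) : ℝ) : ℂ) := by
  have hlk : 0 < lam * κ := by positivity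
  have hc := cst_pos (d := d) hlk
  have h := integral_gauss_fourier hlk (lam • (X H t - x))
  rw [← integral_add_left_eq_self (fun s => ker lam s x * (starRingEnd ℂ) (pk H κ lam s t)) t]
  have h1 : ∀ v : V d, ker lam (t + v) x * (starRingEnd ℂ) (pk H κ lam (t + v) t) =
      Complex.exp (Complex.I * lam * ((H t - inner ℝ t x : ℝ) : ℂ)) *
      Complex.exp (-((lam * κ / 2 : ℝ) : ℂ) * ‖v‖ ^ 2 + Complex.I * inner ℝ (lam • (X H t - x)) v) := by
    intro v
    unfold ker pk
    rw [← Complex.exp_conj, ← Complex.exp_add, ← Complex.exp_add]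
    congr 1
    have e1 : inner ℝ (lam • (X H t - x)) v = lam * (inner ℝ v (X H t) - inner ℝ v x) := by
      rw [real_inner_smul_left, inner_sub_left, real_inner_comm v, real_inner_comm v x]
    have e2 : t + v - t = v := by abel
    have e3 : ‖t - (t + v)‖ = ‖v‖ := by
      rw [sub_add_cancel_left, norm_neg]
    rw [e1, e2, e3, inner_add_left]
    simp only [map_mul, map_neg, map_sub, Complex.conj_I, Complex.conj_ofReal]
    push_cast; ring
  simp_rw [h1]
  rw [integral_const_mul]
  congr 1
  have h2 : ∫ v : V d, Complex.exp (-((lam * κ / 2 : ℝ) : ℂ) * ‖v‖ ^ 2 + Complex.I * inner ℝ (lam • (X H t - x)) v) =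
      ((cst d (lam * κ))⁻¹ : ℝ) * Complex.exp (-(‖lam • (X H t - x)‖ ^ 2 / (2 * (lam * κ)) : ℝ)) := by
    rw [← h, ← mul_assoc, ← Complex.ofReal_mul, inv_mul_cancel₀ hc.ne', Complex.ofReal_one, one_mul]
  rw [h2, Complex.ofReal_mul, Complex.ofReal_exp]
  congr 2
  rw [norm_smul, mul_pow, Real.norm_eq_abs, sq_abs, norm_sub_rev]
  push_cast
  have h3 : (lam : ℂ) ≠ 0 := by exact_mod_cast hl.ne'
  have h4 : (κ : ℂ) ≠ 0 := by exact_mod_cast hκ.ne'
  field_simp

/-- The pairing as a double integral. -/
theorem pairing_eq (hK : IsBody K) (hH : PosC2 (Hup K)) (hl : 0 < lam) (hκ : 0 < κ) :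
    ∫ s, U K lam s * (starRingEnd ℂ) (N (Hup K) R κ lam s) =
      ∫ p : V d × V d, ((cst d (lam / κ) * gg (Hup K) R p.2 * Real.exp (-(lam / κ / 2) * ‖p.1 - X (Hup K) p.2‖ ^ 2) : ℝ) : ℂ) *
        (Kp K).indicator (fun y => Complex.exp (Complex.I * lam *
          ((Hup K p.2 - inner ℝ p.2 y - topf K y : ℝ) : ℂ))) p.1 := by
  set H := Hup K with hHdef
  have hc1 := cst_pos (d := d) hl
  have hlk : 0 < lam * κ := by positivity
  have hc2 := cst_pos (d := d) hlk
  have hfm : AEStronglyMeasurable (fun z : V d × (V d × V d) => ff K lam z.2.1) (volume.prod (volume.prod volume)) :=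
    ((integrable_ff (lam := lam) hK.compact).aestronglyMeasurable.comp_fst).comp_snd
  have hgc : Continuous (fun z : V d × (V d × V d) => gg H R z.2.2) :=
    (continuous_gg hH).comp (continuous_snd.comp continuous_snd)
  have hpc : Continuous (fun z : V d × (V d × V d) => pk H κ lam z.1 z.2.2) :=
    (continuous_pk hH κ lam).comp (continuous_fst.prodMk (continuous_snd.comp continuous_snd))
  have hkc : Continuous (fun z : V d × (V d × V d) => ker lam z.1 z.2.1) :=
    (continuous_ker lam).comp (continuous_fst.prodMk (continuous_fst.comp continuous_snd))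
  have hΦ : Integrable (fun z : V d × (V d × V d) => (ff K lam z.2.1 * ker lam z.1 z.2.1) *
      ((gg H R z.2.2 : ℂ) * (starRingEnd ℂ) (pk H κ lam z.1 z.2.2))) (volume.prod (volume.prod volume)) := by
    rw [integrable_prod_iff']
    · constructor
      · refine Eventually.of_forall fun p => ?_
        simp only
        have h1 : Integrable (fun s : V d => Real.exp (-(lam * κ / 2) * ‖s - p.2‖ ^ 2)) :=
          (integrable_gauss hlk).comp_sub_right p.2
        have h2 := (h1.const_mul (‖ff K lam p.1‖ * gg H R p.2))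
        apply h2.mono'
        · apply Continuous.aestronglyMeasurable
          have h3 : Continuous (fun s : V d => ker lam s p.1) :=
            (continuous_ker lam).comp (continuous_id.prodMk continuous_const)
          have h4 : Continuous (fun s : V d => pk H κ lam s p.2) :=
            (continuous_pk hH κ lam).comp (continuous_id.prodMk continuous_const)
          exact (continuous_const.mul h3).mul (continuous_const.mul (Complex.continuous_conj.comp h4))
        · refine Eventually.of_forall fun s => ?_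
          rw [norm_mul, norm_mul, norm_mul, norm_ker, RCLike.norm_conj, norm_pk, mul_one,
            Complex.norm_of_nonneg (gg_nonneg hH _), norm_sub_rev p.2 s, mul_assoc]
      · have h1 : ∀ p : V d × V d, ∫ s, ‖(ff K lam p.1 * ker lam s p.1) *
            ((gg H R p.2 : ℂ) * (starRingEnd ℂ) (pk H κ lam s p.2))‖ =
            (‖ff K lam p.1‖ * gg H R p.2) * ∫ v : V d, Real.exp (-(lam * κ / 2) * ‖v‖ ^ 2) := by
          intro p
          rw [← integral_sub_right_eq_self (fun v : V d => Real.exp (-(lam * κ / 2) * ‖v‖ ^ 2)) p.2,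
            ← integral_const_mul]
          congr 1
          ext s
          rw [norm_mul, norm_mul, norm_mul, norm_ker, RCLike.norm_conj, norm_pk, mul_one,
            Complex.norm_of_nonneg (gg_nonneg hH _), norm_sub_rev p.2 s, mul_assoc]
        simp only
        simp_rw [h1]
        exact ((integrable_ff hK.compact).norm.mul_prod (integrable_gg hH)).mul_const _
    · apply AEStronglyMeasurable.mul
      · exact hfm.mul hkc.aestronglyMeasurable
      · apply Continuous.aestronglyMeasurable
        exact (Complex.continuous_ofReal.comp hgc).mul (Complex.continuous_conj.comp hpc)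
  have hswap := integral_integral_swap (f := fun (s : V d) (p : V d × V d) =>
    (ff K lam p.1 * ker lam s p.1) * ((gg H R p.2 : ℂ) * (starRingEnd ℂ) (pk H κ lam s p.2))) hΦ
  have hL : ∀ s : V d, U K lam s * (starRingEnd ℂ) (N H R κ lam s) = ((cst d lam * cst d lam : ℝ) : ℂ) *
      ∫ p : V d × V d, (ff K lam p.1 * ker lam s p.1) * ((gg H R p.2 : ℂ) * (starRingEnd ℂ) (pk H κ lam s p.2)) := by
    intro s
    have h2 : ∫ p : V d × V d, (ff K lam p.1 * ker lam s p.1) * ((gg H R p.2 : ℂ) * (starRingEnd ℂ) (pk H κ lam s p.2)) =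
        (∫ x, ff K lam x * ker lam s x) * ∫ t, (gg H R t : ℂ) * (starRingEnd ℂ) (pk H κ lam s t) :=
      integral_prod_mul (μ := volume) (ν := volume) (fun x => ff K lam x * ker lam s x)
        (fun t => (gg H R t : ℂ) * (starRingEnd ℂ) (pk H κ lam s t))
    rw [h2, U_eq hK.compact]
    unfold N
    rw [map_mul, Complex.conj_ofReal, ← integral_conj]
    simp only [map_mul, Complex.conj_ofReal]
    push_cast; ring
  simp_rw [hL]
  rw [integral_const_mul]
  refine (congrArg (fun z => ((cst d lam * cst d lam : ℝ) : ℂ) * z) hswap).trans ?_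
  change ((cst d lam * cst d lam : ℝ) : ℂ) * ∫ p : V d × V d, ∫ s, (ff K lam p.1 * ker lam s p.1) *
    ((gg H R p.2 : ℂ) * (starRingEnd ℂ) (pk H κ lam s p.2)) = _
  rw [← integral_const_mul]
  congr 1
  ext p
  have h3 : ∫ s, (ff K lam p.1 * ker lam s p.1) * ((gg H R p.2 : ℂ) * (starRingEnd ℂ) (pk H κ lam s p.2)) =
      (ff K lam p.1 * (gg H R p.2 : ℂ)) * ∫ s, ker lam s p.1 * (starRingEnd ℂ) (pk H κ lam s p.2) := by
    rw [← integral_const_mul]
    congr 1
    ext s
    ring
  rw [h3, integral_ker_pk H hl hκ]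
  have h4 : cst d lam * cst d lam = cst d (lam * κ) * cst d (lam / κ) := cst_sq_div hl hκ
  rw [h4]
  have h5 : (cst d (lam * κ) : ℂ) ≠ 0 := by exact_mod_cast hc2.ne'
  unfold ff
  by_cases hx : p.1 ∈ Kp K
  · rw [indicator_of_mem hx, indicator_of_mem hx]
    have h6 : Complex.exp (Complex.I * lam * ((H p.2 - inner ℝ p.2 p.1 - topf K p.1 : ℝ) : ℂ)) =
        Complex.exp (-Complex.I * lam * (topf K p.1 : ℂ)) * Complex.exp (Complex.I * lam * ((H p.2 - inner ℝ p.2 p.1 : ℝ) : ℂ)) := by
      rw [← Complex.exp_add]; congr 1; push_cast; ring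
    rw [h6]
    push_cast
    field_simp
  · rw [indicator_of_notMem hx, indicator_of_notMem hx]; simp

end

end Pool.Agent.Helper28.Cov
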