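import Pool.Agent.Helper28.Cov.Pair

/-!
Covariogram problem, Module B (helper28): asymptotic value of the pairing.
-/

open MeasureTheory Set Filter Topology

namespace Pool.Agent.Helper28.Cov

open Pool.Agent.Helper77.Cov

section
variable {d : ℕ} {K : Set (V d × ℝ)} {R κ lam : ℝ}

theorem integrable_sq_gauss {b : ℝ} (hb : 0 < b) :
    Integrable (fun v : V d => ‖v‖ ^ 2 * Real.exp (-(b / 2) * ‖v‖ ^ 2)) := by
  have h := (integrable_gauss (d := d) (b := b / 2) (by positivity)).const_mul (4 / b)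
  apply h.mono' (by fun_prop)
  refine Eventually.of_forall fun v => ?_
  rw [Real.norm_of_nonneg (by positivity)]
  have h1 : b / 4 * ‖v‖ ^ 2 ≤ Real.exp (b / 4 * ‖v‖ ^ 2) := by
    linarith [Real.add_one_le_exp (b / 4 * ‖v‖ ^ 2)]
  have h2 : ‖v‖ ^ 2 ≤ 4 / b * Real.exp (b / 4 * ‖v‖ ^ 2) := by
    have : ‖v‖ ^ 2 = 4 / b * (b / 4 * ‖v‖ ^ 2) := by field_simp
    rw [this]
    have h3 : 4 / b * (b / 4 * ‖v‖ ^ 2) ≤ 4 / b * Real.exp (b / 4 * ‖v‖ ^ 2) := by gcongr
    rwa [← this] at h3 ⊢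
  calc ‖v‖ ^ 2 * Real.exp (-(b / 2) * ‖v‖ ^ 2) ≤ (4 / b * Real.exp (b / 4 * ‖v‖ ^ 2)) * Real.exp (-(b / 2) * ‖v‖ ^ 2) := by gcongr
    _ = 4 / b * Real.exp (-(b / 2 / 2) * ‖v‖ ^ 2) := by
      rw [mul_assoc, ← Real.exp_add]; congr 2; ring

/-- Second moment of the standard Gaussian. -/
noncomputable def M2 (d : ℕ) : ℝ := cst d 1 * ∫ v : V d, ‖v‖ ^ 2 * Real.exp (-(1 / 2) * ‖v‖ ^ 2)

theorem M2_nonneg (d : ℕ) : 0 ≤ M2 d :=
  mul_nonneg (cst_pos one_pos).le (integral_nonneg fun v => by positivity)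

theorem second_moment {b : ℝ} (hb : 0 < b) :
    cst d b * ∫ v : V d, ‖v‖ ^ 2 * Real.exp (-(b / 2) * ‖v‖ ^ 2) = M2 d / b := by
  have h := scaling (d := d) hb (fun v : V d => ‖v‖ ^ 2 * Real.exp (-(b / 2) * ‖v‖ ^ 2)) 0
  rw [smul_eq_mul, smul_eq_mul] at h
  rw [h]
  unfold M2
  rw [mul_div_assoc, ← integral_div]
  congr 1
  congr 1
  ext v
  have hr2 : ((Real.sqrt b)⁻¹) ^ 2 = 1 / b := by
    rw [inv_pow, Real.sq_sqrt hb.le]; field_simp
  rw [zero_add, norm_smul, mul_pow, Real.norm_eq_abs, sq_abs, hr2]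
  have : -(b / 2) * (1 / b * ‖v‖ ^ 2) = -(1 / 2) * ‖v‖ ^ 2 := by field_simp
  rw [this]; ring

theorem integrable_double (H : V d → ℝ) (hH : PosC2 H) {w : V d → ℝ}
    (hwc : Continuous w) (hw0 : ∀ v, 0 ≤ w v) (hw : Integrable w) :
    Integrable (fun p : V d × V d => gg H R p.2 * w (p.1 - X H p.2)) (volume.prod volume) ∧
    ∫ p : V d × V d, gg H R p.2 * w (p.1 - X H p.2) = (∫ t, gg H R t) * ∫ v, w v := by
  have h1 : Integrable (fun p : V d × V d => gg H R p.2 * w (p.1 - X H p.2)) (volume.prod volume) := by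
    rw [integrable_prod_iff']
    · constructor
      · refine Eventually.of_forall fun t => ?_
        exact (hw.comp_sub_right (X H t)).const_mul (gg H R t)
      · have h2 : ∀ t : V d, ∫ y, ‖gg H R t * w (y - X H t)‖ = gg H R t * ∫ v, w v := by
          intro t
          rw [← integral_sub_right_eq_self w (X H t), ← integral_const_mul]
          congr 1
          ext y
          rw [Real.norm_of_nonneg (mul_nonneg (gg_nonneg hH t) (hw0 _))]
        simp only
        simp_rw [h2]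
        exact (integrable_gg hH).mul_const _
    · apply Continuous.aestronglyMeasurable
      have h2 : Continuous (fun p : V d × V d => gg H R p.2) := (continuous_gg hH).comp continuous_snd
      have h3 : Continuous (fun p : V d × V d => w (p.1 - X H p.2)) :=
        hwc.comp (continuous_fst.sub ((cont_X hH).comp continuous_snd))
      exact h2.mul h3
  refine ⟨h1, ?_⟩
  change ∫ p, _ ∂(volume.prod volume) = _
  rw [integral_prod_symm _ h1, ← integral_mul_const]
  congr 1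
  ext t
  simp only
  rw [integral_const_mul, integral_sub_right_eq_self w (X H t)]

theorem pairing_bound (hK : IsBody K) (hH : PosC2 (Hup K)) (R : ℝ) :
    ∃ C : ℝ, 0 ≤ C ∧ ∀ κ : ℝ, 0 < κ → ∀ lam : ℝ, 1 ≤ lam →
      ‖(∫ s, U K lam s * (starRingEnd ℂ) (N (Hup K) R κ lam s)) - ((∫ t, gg (Hup K) R t : ℝ) : ℂ)‖ ≤ C * κ := by
  obtain ⟨C, hC, hCb⟩ := phase_bound hK hH (R + 1)
  set H := Hup K with hHdef
  have hI0 : 0 ≤ ∫ t, gg H R t := integral_nonneg fun t => gg_nonneg hH t
  refine ⟨C * M2 d * ∫ t, gg H R t, by have := M2_nonneg d; positivity, ?_⟩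
  intro κ hκ lam hlam
  have hl : 0 < lam := by linarith
  have hb : 0 < lam / κ := by positivity
  have hc := cst_pos (d := d) hb
  rw [pairing_eq hK hH hl hκ]
  -- write the integral of gg as a double integral
  obtain ⟨hi1, he1⟩ := integrable_double (R := R) H hH (w := fun v => Real.exp (-(lam / κ / 2) * ‖v‖ ^ 2))
    (by fun_prop) (fun v => (Real.exp_pos _).le) (integrable_gauss hb)
  obtain ⟨hi2, he2⟩ := integrable_double (R := R) H hH (w := fun v => ‖v‖ ^ 2 * Real.exp (-(lam / κ / 2) * ‖v‖ ^ 2))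
    (by fun_prop) (fun v => by positivity) (integrable_sq_gauss hb)
  have h1 : ((∫ t, gg H R t : ℝ) : ℂ) = ∫ p : V d × V d, ((cst d (lam / κ) * gg H R p.2 *
      Real.exp (-(lam / κ / 2) * ‖p.1 - X H p.2‖ ^ 2) : ℝ) : ℂ) := by
    rw [integral_complex_ofReal]
    congr 1
    simp_rw [mul_assoc]
    rw [integral_const_mul, he1]
    have := integral_gauss (d := d) hb
    calc ∫ t, gg H R t = (∫ t, gg H R t) * (cst d (lam / κ) * ∫ v : V d, Real.exp (-(lam / κ / 2) * ‖v‖ ^ 2)) := by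
          rw [this, mul_one]
      _ = _ := by ring
  rw [h1]
  set ph : V d × V d → ℂ := fun p => (Kp K).indicator (fun y => Complex.exp (Complex.I * lam *
          ((H p.2 - inner ℝ p.2 y - topf K y : ℝ) : ℂ))) p.1 with hph
  have hphm : Measurable ph := by
    have h2 : ph = (Prod.fst ⁻¹' (Kp K)).indicator (fun p : V d × V d => Complex.exp (Complex.I * lam *
          ((H p.2 - inner ℝ p.2 p.1 - topf K p.1 : ℝ) : ℂ))) := by
      ext p
      rw [hph]
      by_cases hp : p.1 ∈ Kp K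
      · simp only
        rw [indicator_of_mem hp, indicator_of_mem (by exact hp)]
      · simp only
        rw [indicator_of_notMem hp, indicator_of_notMem (by exact hp)]
    rw [h2]
    apply Measurable.indicator
    · have h3 : Measurable (fun p : V d × V d => topf K p.1) := (measurable_topf hK.compact).comp measurable_fst
      have h4 : Measurable (fun p : V d × V d => H p.2) := ((cont_H hH).comp continuous_snd).measurable
      have h5 : Measurable (fun p : V d × V d => (inner ℝ p.2 p.1 : ℝ)) := (continuous_snd.inner continuous_fst).measurable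
      have h6 : Measurable (fun p : V d × V d => H p.2 - inner ℝ p.2 p.1 - topf K p.1) := (h4.sub h5).sub h3
      fun_prop
    · exact measurable_fst (isCompact_Kp hK.compact).measurableSet
  have hi3 : Integrable (fun p : V d × V d => ((cst d (lam / κ) * gg H R p.2 *
      Real.exp (-(lam / κ / 2) * ‖p.1 - X H p.2‖ ^ 2) : ℝ) : ℂ)) := by
    have h2 := (hi1.const_mul (cst d (lam / κ))).ofReal (𝕜 := ℂ)
    refine h2.congr (Eventually.of_forall fun p => ?_)
    simp only
    rw [mul_assoc]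
    rfl
  have hphb : ∀ p, ‖ph p‖ ≤ 1 := by
    intro p
    rw [hph]
    simp only
    by_cases hp : p.1 ∈ Kp K
    · rw [indicator_of_mem hp, Complex.norm_exp]; simp
    · rw [indicator_of_notMem hp]; simp
  have hi4 : Integrable (fun p : V d × V d => ((cst d (lam / κ) * gg H R p.2 *
      Real.exp (-(lam / κ / 2) * ‖p.1 - X H p.2‖ ^ 2) : ℝ) : ℂ) * ph p) :=
    hi3.mul_bdd (c := 1) hphm.aestronglyMeasurable (Eventually.of_forall hphb)
  rw [← integral_sub hi4 hi3]
  have hi5 : Integrable (fun p : V d × V d => cst d (lam / κ) * (C * lam) * (gg H R p.2 * (‖p.1 - X H p.2‖ ^ 2 *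
      Real.exp (-(lam / κ / 2) * ‖p.1 - X H p.2‖ ^ 2)))) := hi2.const_mul _
  calc ‖∫ p : V d × V d, (((cst d (lam / κ) * gg H R p.2 *
      Real.exp (-(lam / κ / 2) * ‖p.1 - X H p.2‖ ^ 2) : ℝ) : ℂ) * ph p - ((cst d (lam / κ) * gg H R p.2 *
      Real.exp (-(lam / κ / 2) * ‖p.1 - X H p.2‖ ^ 2) : ℝ) : ℂ))‖
      ≤ ∫ p : V d × V d, cst d (lam / κ) * (C * lam) * (gg H R p.2 * (‖p.1 - X H p.2‖ ^ 2 *
      Real.exp (-(lam / κ / 2) * ‖p.1 - X H p.2‖ ^ 2))) := by
        apply norm_integral_le_of_norm_le hi5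
        refine Eventually.of_forall fun p => ?_
        have h2 : ((cst d (lam / κ) * gg H R p.2 *
            Real.exp (-(lam / κ / 2) * ‖p.1 - X H p.2‖ ^ 2) : ℝ) : ℂ) * ph p - ((cst d (lam / κ) * gg H R p.2 *
            Real.exp (-(lam / κ / 2) * ‖p.1 - X H p.2‖ ^ 2) : ℝ) : ℂ) = ((cst d (lam / κ) * gg H R p.2 *
            Real.exp (-(lam / κ / 2) * ‖p.1 - X H p.2‖ ^ 2) : ℝ) : ℂ) * (ph p - 1) := by ring
        rw [h2, norm_mul, Complex.norm_of_nonneg (mul_nonneg (mul_nonneg hc.le (gg_nonneg hH _)) (Real.exp_pos _).le)]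
        by_cases ht : R + 1 ≤ ‖p.2‖
        · rw [gg_eq_zero ht]; simp
        · push Not at ht
          have h3 := hCb p.2 ht.le p.1 lam hlam
          have h4 : ‖ph p - 1‖ ≤ C * (lam * ‖p.1 - X H p.2‖ ^ 2) := h3
          have hg0 := gg_nonneg (R := R) hH p.2
          calc cst d (lam / κ) * gg H R p.2 * Real.exp (-(lam / κ / 2) * ‖p.1 - X H p.2‖ ^ 2) * ‖ph p - 1‖
              ≤ cst d (lam / κ) * gg H R p.2 * Real.exp (-(lam / κ / 2) * ‖p.1 - X H p.2‖ ^ 2) * (C * (lam * ‖p.1 - X H p.2‖ ^ 2)) := by gcongr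
            _ = _ := by ring
    _ = C * lam * (∫ t, gg H R t) * (cst d (lam / κ) * ∫ v : V d, ‖v‖ ^ 2 * Real.exp (-(lam / κ / 2) * ‖v‖ ^ 2)) := by
        rw [integral_const_mul, he2]; ring
    _ = C * M2 d * (∫ t, gg H R t) * κ := by
        rw [second_moment hb]
        field_simp

end

end Pool.Agent.Helper28.Cov
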