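import Pool.Agent.Helper28.Cov.Gamma

/-!
Covariogram problem, Module B (helper28): facts on `C²` functions with positive definite Hessian.
-/

open MeasureTheory Set Filter Topology

namespace Pool.Agent.Helper28.Cov

open Pool.Agent.Helper77.Cov

/-- Gradient. -/
noncomputable def X {d : ℕ} (H : V d → ℝ) (s : V d) : V d :=
  (InnerProductSpace.toDual ℝ (V d)).symm (fderiv ℝ H s)

/-- Second derivative. -/
noncomputable abbrev D {d : ℕ} (H : V d → ℝ) (s : V d) : V d →L[ℝ] V d →L[ℝ] ℝ :=
  fderiv ℝ (fderiv ℝ H) s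

/-- Determinant of the Hessian. -/
noncomputable def J {d : ℕ} (H : V d → ℝ) (s : V d) : ℝ := (hess H s).det

section
variable {d : ℕ} {H : V d → ℝ}

theorem inner_X (s v : V d) : inner ℝ (X H s) v = fderiv ℝ H s v := by
  unfold X
  exact InnerProductSpace.toDual_symm_apply

theorem diff_H (hH : PosC2 H) (s : V d) : HasFDerivAt H (fderiv ℝ H s) s :=
  (hH.1.differentiable (by norm_num) s).hasFDerivAt

theorem contDiff_fderiv (hH : PosC2 H) : ContDiff ℝ 1 (fderiv ℝ H) :=
  hH.1.fderiv_right (by norm_num)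

theorem diff_fH (hH : PosC2 H) (s : V d) : HasFDerivAt (fderiv ℝ H) (D H s) s :=
  ((contDiff_fderiv hH).differentiable (by norm_num) s).hasFDerivAt

theorem cont_D (hH : PosC2 H) : Continuous (D H) :=
  (contDiff_fderiv hH).continuous_fderiv (by norm_num)

theorem cont_H (hH : PosC2 H) : Continuous H := hH.1.continuous

theorem cont_fH (hH : PosC2 H) : Continuous (fderiv ℝ H) := (contDiff_fderiv hH).continuous

theorem cont_X (hH : PosC2 H) : Continuous (X H) :=
  (LinearIsometryEquiv.continuous _).comp (cont_fH hH)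

theorem D_symm (hH : PosC2 H) (s v w : V d) : D H s v w = D H s w v := by
  have := (hH.1.contDiffAt (x := s)).isSymmSndFDerivAt (by simp)
  exact this v w

/-- Second order mean value formula in one variable. -/
theorem lagrange2 {g g' g'' : ℝ → ℝ} (hg : ∀ r, HasDerivAt g (g' r) r)
    (hg' : ∀ r, HasDerivAt g' (g'' r) r) :
    ∃ ξ ∈ Ioo (0 : ℝ) 1, g 1 - g 0 - g' 0 = g'' ξ / 2 := by
  obtain ⟨c, hc, h⟩ := exists_ratio_hasDerivAt_eq_ratio_slope (fun r => g r - g 0 - g' 0 * r)
    (fun r => g' r - g' 0) (zero_lt_one)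
    (fun r _ => (((hg r).continuousAt.sub continuousAt_const).sub
      (continuousAt_const.mul continuousAt_id)).continuousWithinAt)
    (fun r _ => by
      have : HasDerivAt (fun r => g r - g 0 - g' 0 * r) (g' r - g' 0 * 1) r :=
        ((hg r).sub_const (g 0)).sub ((hasDerivAt_id r).const_mul (g' 0))
      simpa using this)
    (fun r => r ^ 2) (fun r => 2 * r) (fun r _ => (continuous_pow 2).continuousWithinAt)
    (fun r _ => by simpa using hasDerivAt_pow 2 r)
  obtain ⟨e, he, h2⟩ := exists_hasDerivAt_eq_slope g' g'' hc.1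
    (fun r _ => (hg' r).continuousAt.continuousWithinAt) (fun r _ => hg' r)
  refine ⟨e, ⟨he.1, he.2.trans hc.2⟩, ?_⟩
  have hc0 := hc.1
  rw [h2]
  simp only [sub_zero]
  simp only [one_pow, mul_one] at h
  field_simp
  nlinarith

/-- Second order mean value formula. -/
theorem taylor2 (hH : PosC2 H) (s w : V d) :
    ∃ ξ ∈ Ioo (0 : ℝ) 1, H (s + w) - H s - fderiv ℝ H s w = D H (s + ξ • w) w w / 2 := by
  have hline : ∀ r : ℝ, HasDerivAt (fun r : ℝ => s + r • w) w r := by
    intro r
    simpa using ((hasDerivAt_id r).smul_const w).const_add s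
  have h1 : ∀ r : ℝ, HasDerivAt (fun r : ℝ => H (s + r • w)) (fderiv ℝ H (s + r • w) w) r := by
    intro r
    exact (diff_H hH (s + r • w)).comp_hasDerivAt r (hline r)
  have h2 : ∀ r : ℝ, HasDerivAt (fun r : ℝ => fderiv ℝ H (s + r • w) w) (D H (s + r • w) w w) r := by
    intro r
    have h3 : HasDerivAt (fun r : ℝ => fderiv ℝ H (s + r • w)) (D H (s + r • w) w) r :=
      (diff_fH hH (s + r • w)).comp_hasDerivAt r (hline r)
    simpa using h3.clm_apply (hasDerivAt_const r w)
  obtain ⟨ξ, hξ, h⟩ := lagrange2 h1 h2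
  refine ⟨ξ, hξ, ?_⟩
  simpa using h

/-- Mean value formula for the gradient. -/
theorem mvt_fderiv (hH : PosC2 H) (s w : V d) :
    ∃ ξ ∈ Ioo (0 : ℝ) 1, fderiv ℝ H (s + w) w - fderiv ℝ H s w = D H (s + ξ • w) w w := by
  have hline : ∀ r : ℝ, HasDerivAt (fun r : ℝ => s + r • w) w r := by
    intro r
    simpa using ((hasDerivAt_id r).smul_const w).const_add s
  have h2 : ∀ r : ℝ, HasDerivAt (fun r : ℝ => fderiv ℝ H (s + r • w) w) (D H (s + r • w) w w) r := by
    intro r
    have h3 : HasDerivAt (fun r : ℝ => fderiv ℝ H (s + r • w)) (D H (s + r • w) w) r :=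
      (diff_fH hH (s + r • w)).comp_hasDerivAt r (hline r)
    simpa using h3.clm_apply (hasDerivAt_const r w)
  obtain ⟨ξ, hξ, h⟩ := exists_hasDerivAt_eq_slope _ _ zero_lt_one
    (fun r _ => (h2 r).continuousAt.continuousWithinAt) (fun r _ => h2 r)
  refine ⟨ξ, hξ, ?_⟩
  simp at h
  linarith

theorem X_injective (hH : PosC2 H) : Function.Injective (X H) := by
  intro s t h
  by_contra hne
  have hw : t - s ≠ 0 := sub_ne_zero.mpr (Ne.symm hne)
  obtain ⟨ξ, hξ, h2⟩ := mvt_fderiv hH s (t - s)
  have h3 : s + (t - s) = t := by abel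
  rw [h3, ← inner_X, ← inner_X, h, sub_self] at h2
  have := hH.2 (s + ξ • (t - s)) (t - s) hw
  rw [← h2] at this
  exact lt_irrefl _ this

/-- Characterisation of the gradient as a subgradient. -/
theorem eq_X_of_local_min (hH : PosC2 H) {s y : V d}
    (h : IsLocalMin (fun t => H t - inner ℝ t y) s) : y = X H s := by
  have hd : HasFDerivAt (fun t : V d => H t - inner ℝ t y) (fderiv ℝ H s - innerSL ℝ y) s := by
    apply (diff_H hH s).sub
    have : HasFDerivAt (fun t : V d => innerSL ℝ y t) (innerSL ℝ y) s := (innerSL ℝ y).hasFDerivAt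
    refine this.congr_of_eventuallyEq (Eventually.of_forall fun t => ?_)
    simp [real_inner_comm]
  have h0 := h.hasFDerivAt_eq_zero hd
  apply ext_inner_right ℝ
  intro v
  rw [inner_X]
  have := congrArg (fun L => L v) h0
  simp only [sub_apply, zero_apply, innerSL_apply_apply] at this
  linarith

theorem X_of_forall (hH : PosC2 H) {s y : V d} (h : ∀ t, H s + inner ℝ (t - s) y ≤ H t) : y = X H s := by
  apply eq_X_of_local_min hH
  apply Filter.Eventually.of_forall
  intro t
  have := h t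
  rw [inner_sub_left] at this
  linarith

/-- The (real linear) Riesz map. -/
noncomputable def riesz (d : ℕ) : (V d →L[ℝ] ℝ) →L[ℝ] V d :=
  LinearMap.mkContinuous
    { toFun := fun L => (InnerProductSpace.toDual ℝ (V d)).symm L
      map_add' := fun a b => map_add _ a b
      map_smul' := fun c a => by simp } 1 (fun L => by simp)

theorem riesz_apply (L : V d →L[ℝ] ℝ) : riesz d L = (InnerProductSpace.toDual ℝ (V d)).symm L := rfl

/-- Derivative of the gradient map. -/
noncomputable def Q (H : V d → ℝ) (s : V d) : V d →L[ℝ] V d := (riesz d).comp (D H s)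

theorem inner_Q (s v w : V d) : inner ℝ (Q H s v) w = D H s v w := by
  unfold Q
  rw [ContinuousLinearMap.comp_apply, riesz_apply]
  exact InnerProductSpace.toDual_symm_apply

theorem hasFDerivAt_X (hH : PosC2 H) (s : V d) : HasFDerivAt (X H) (Q H s) s :=
  ((riesz d).hasFDerivAt).comp s (diff_fH hH s)

theorem det_Q (hH : PosC2 H) (s : V d) : (Q H s).det = J H s := by
  unfold J
  rw [hess_eq_matB]
  have h1 : (Q H s).det = LinearMap.det (Q H s : V d →ₗ[ℝ] V d) := rfl
  rw [h1, ← LinearMap.det_toMatrix (EuclideanSpace.basisFun (Fin d) ℝ).toBasis]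
  congr 1
  ext i j
  rw [LinearMap.toMatrix_apply]
  have h2 : ((EuclideanSpace.basisFun (Fin d) ℝ).toBasis.repr
      ((Q H s : V d →ₗ[ℝ] V d) ((EuclideanSpace.basisFun (Fin d) ℝ).toBasis j))) i =
      inner ℝ (EuclideanSpace.basisFun (Fin d) ℝ i) (Q H s (EuclideanSpace.basisFun (Fin d) ℝ j)) := by
    rw [← OrthonormalBasis.repr_apply_apply]
    simp
  rw [h2, real_inner_comm, inner_Q]
  simp [matB]
  exact D_symm hH _ _ _

theorem J_pos (hH : PosC2 H) (s : V d) : 0 < J H s := by
  obtain ⟨q, b, hq, hdet, -⟩ := exists_diag (D H s) (D_symm hH s) (hH.2 s)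
  unfold J
  rw [hess_eq_matB, ← hdet]
  exact Finset.prod_pos fun i _ => hq i

theorem cont_J (hH : PosC2 H) : Continuous (J H) := by
  unfold J
  apply Continuous.matrix_det
  apply continuous_matrix
  intro i j
  have := cont_D hH
  exact (this.clm_apply continuous_const).clm_apply continuous_const

/-- Uniform lower ellipticity on compact sets. -/
theorem exists_lower (hH : PosC2 H) {S : Set (V d)} (hS : IsCompact S) :
    ∃ c : ℝ, 0 < c ∧ ∀ s ∈ S, ∀ w : V d, c * ‖w‖ ^ 2 ≤ D H s w w := by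
  have hcomp : IsCompact (S ×ˢ Metric.sphere (0 : V d) 1) := hS.prod (isCompact_sphere 0 1)
  have hcont : Continuous (fun p : V d × V d => D H p.1 p.2 p.2) :=
    (((cont_D hH).comp continuous_fst).clm_apply continuous_snd).clm_apply continuous_snd
  obtain ⟨c, hc, h⟩ := hcomp.exists_forall_le' hcont.continuousOn (a := 0) (by
    rintro ⟨s, w⟩ ⟨_, hw⟩
    apply hH.2
    intro h0
    simp only at hw h0
    rw [h0] at hw
    simp at hw)
  refine ⟨c, hc, ?_⟩
  intro s hs w
  by_cases hw : w = 0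
  · simp [hw]
  · have hn : 0 < ‖w‖ := norm_pos_iff.mpr hw
    have := h (s, ‖w‖⁻¹ • w) ⟨hs, by simp [norm_smul, hn.ne']⟩
    simp only [map_smul, smul_apply, smul_eq_mul] at this
    have h2 : ‖w‖⁻¹ * (‖w‖⁻¹ * D H s w w) = D H s w w / ‖w‖ ^ 2 := by
      field_simp
    rw [h2, le_div_iff₀ (by positivity)] at this
    exact this

/-- Uniform upper bound on compact sets. -/
theorem exists_upper (hH : PosC2 H) {S : Set (V d)} (hS : IsCompact S) :
    ∃ C : ℝ, 0 < C ∧ ∀ s ∈ S, ∀ w : V d, D H s w w ≤ C * ‖w‖ ^ 2 := by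
  have hcomp : IsCompact (S ×ˢ Metric.sphere (0 : V d) 1) := hS.prod (isCompact_sphere 0 1)
  have hcont : Continuous (fun p : V d × V d => D H p.1 p.2 p.2) :=
    (((cont_D hH).comp continuous_fst).clm_apply continuous_snd).clm_apply continuous_snd
  obtain ⟨C, hC⟩ := (hcomp.image hcont).bddAbove
  refine ⟨max C 1, by positivity, ?_⟩
  intro s hs w
  by_cases hw : w = 0
  · simp [hw]
  · have hn : 0 < ‖w‖ := norm_pos_iff.mpr hw
    have hmem : (s, ‖w‖⁻¹ • w) ∈ S ×ˢ Metric.sphere (0 : V d) 1 := ⟨hs, by simp [norm_smul, hn.ne']⟩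
    have := hC (mem_image_of_mem _ hmem)
    simp only [map_smul, smul_apply, smul_eq_mul] at this
    have h2 : ‖w‖⁻¹ * (‖w‖⁻¹ * D H s w w) = D H s w w / ‖w‖ ^ 2 := by
      field_simp
    rw [h2, div_le_iff₀ (by positivity)] at this
    apply this.trans
    apply mul_le_mul_of_nonneg_right (le_max_left _ _) (by positivity)

end

end Pool.Agent.Helper28.Cov
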