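import Pool.Agent.Helper28.Cov.PosC2
import Pool.Agent.Helper28.Cov.Body

/-!
Covariogram problem, Module B (helper28): the upper support chart and the boundary function.
-/

open MeasureTheory Set Filter Topology

namespace Pool.Agent.Helper28.Cov

open Pool.Agent.Helper77.Cov

section
variable {d : ℕ} {K : Set (V d × ℝ)}

theorem X_mem (hK : IsBody K) (hH : PosC2 (Hup K)) (s : V d) :
    (X (Hup K) s, Hup K s - inner ℝ s (X (Hup K) s)) ∈ K := by
  obtain ⟨⟨x, t⟩, hp, h⟩ := exists_Hup hK s
  simp only at h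
  have hx : x = X (Hup K) s := by
    apply X_of_forall hH
    intro t'
    have := le_Hup hK.compact hp t'
    rw [inner_sub_left]
    linarith
  rw [← hx]
  have : Hup K s - inner ℝ s x = t := by linarith
  rw [this]
  exact hp

theorem X_mem_Kp (hK : IsBody K) (hH : PosC2 (Hup K)) (s : V d) : X (Hup K) s ∈ Kp K :=
  ⟨_, X_mem hK hH s, rfl⟩

theorem topf_le (hK : IsBody K) {y : V d} (hy : y ∈ Kp K) (t : V d) :
    topf K y ≤ Hup K t - inner ℝ t y := by
  have := le_Hup hK.compact (mem_topf hK.compact hy) t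
  linarith

theorem topf_X (hK : IsBody K) (hH : PosC2 (Hup K)) (s : V d) :
    topf K (X (Hup K) s) = Hup K s - inner ℝ s (X (Hup K) s) :=
  le_antisymm (topf_le hK (X_mem_Kp hK hH s) s) (le_topf hK.compact (X_mem hK hH s))

theorem interior_subset_range (hK : IsBody K) (hH : PosC2 (Hup K)) :
    interior (Kp K) ⊆ range (X (Hup K)) := by
  intro y hy
  rw [mem_interior_iff_mem_nhds, Metric.mem_nhds_iff] at hy
  obtain ⟨ε, hε, hball⟩ := hy
  obtain ⟨M, hM⟩ : ∃ M : ℝ, ∀ p ∈ K, -M ≤ p.2 := by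
    obtain ⟨M, hM⟩ := (hK.compact.image continuous_snd).bddBelow
    exact ⟨-M, fun p hp => by simpa using hM (mem_image_of_mem _ hp)⟩
  have hcoer : ∀ s : V d, ε / 2 * ‖s‖ - M ≤ Hup K s - inner ℝ s y := by
    intro s
    have hmem : y + (ε / 2) • (‖s‖⁻¹ • s) ∈ Kp K := by
      apply hball
      rw [Metric.mem_ball, dist_eq_norm, add_sub_cancel_left, norm_smul, norm_smul]
      have : ‖(‖s‖⁻¹)‖ * ‖s‖ ≤ 1 := by
        rw [norm_inv, norm_norm]
        exact inv_mul_le_one
      rw [Real.norm_of_nonneg (by positivity)]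
      nlinarith
    have h1 := le_Hup hK.compact (mem_topf hK.compact hmem) s
    have h2 := hM _ (mem_topf hK.compact hmem)
    rw [inner_add_right, inner_smul_right, inner_smul_right, real_inner_self_eq_norm_sq] at h1
    have h3 : ‖s‖⁻¹ * ‖s‖ ^ 2 = ‖s‖ := by
      by_cases h : ‖s‖ = 0
      · simp [h]
      · field_simp
    rw [h3] at h1
    simp only at h2
    linarith
  have hcont : Continuous (fun s => Hup K s - inner ℝ s y) :=
    (cont_H hH).sub (continuous_id.inner continuous_const)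
  have hlim : Tendsto (fun s => Hup K s - inner ℝ s y) (cocompact (V d)) atTop := by
    apply tendsto_atTop_mono hcoer
    apply tendsto_atTop_add_const_right
    exact Tendsto.const_mul_atTop (by positivity) (tendsto_norm_cocompact_atTop)
  obtain ⟨s, hs⟩ := hcont.exists_forall_le hlim
  refine ⟨s, ?_⟩
  symm
  apply eq_X_of_local_min hH
  exact Filter.Eventually.of_forall hs

theorem range_subset (hK : IsBody K) (hH : PosC2 (Hup K)) : range (X (Hup K)) ⊆ Kp K := by
  rintro _ ⟨s, rfl⟩
  exact X_mem_Kp hK hH s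

theorem lintegral_J (hK : IsBody K) (hH : PosC2 (Hup K)) :
    ∫⁻ s, ENNReal.ofReal (J (Hup K) s) = volume (Kp K) := by
  have h1 := lintegral_abs_det_fderiv_eq_addHaar_image (volume : Measure (V d)) MeasurableSet.univ
    (fun x _ => (hasFDerivAt_X hH x).hasFDerivWithinAt) (X_injective hH).injOn
  rw [setLIntegral_univ, image_univ] at h1
  have h2 : ∀ s, ENNReal.ofReal |(Q (Hup K) s).det| = ENNReal.ofReal (J (Hup K) s) := by
    intro s
    rw [det_Q hH, abs_of_pos (J_pos hH s)]
  simp_rw [h2] at h1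
  rw [h1]
  apply le_antisymm (measure_mono (range_subset hK hH))
  calc volume (Kp K) ≤ volume (interior (Kp K) ∪ frontier (Kp K)) := by
        apply measure_mono
        intro x hx
        by_cases h : x ∈ interior (Kp K)
        · exact Or.inl h
        · exact Or.inr ⟨subset_closure hx, h⟩
    _ ≤ volume (interior (Kp K)) + volume (frontier (Kp K)) := measure_union_le _ _
    _ = volume (interior (Kp K)) := by
        rw [(convex_Kp hK.convex).addHaar_frontier volume, add_zero]
    _ ≤ volume (range (X (Hup K))) := measure_mono (interior_subset_range hK hH)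

theorem integrable_J (hK : IsBody K) (hH : PosC2 (Hup K)) : Integrable (J (Hup K)) := by
  refine ⟨(cont_J hH).aestronglyMeasurable, ?_⟩
  rw [hasFiniteIntegral_iff_ofReal (Eventually.of_forall fun s => (J_pos hH s).le), lintegral_J hK hH]
  exact (isCompact_Kp hK.compact).measure_lt_top

theorem integral_J (hK : IsBody K) (hH : PosC2 (Hup K)) :
    ∫ s, J (Hup K) s = (volume (Kp K)).toReal := by
  rw [integral_eq_lintegral_of_nonneg_ae (Eventually.of_forall fun s => (J_pos hH s).le)
    (cont_J hH).aestronglyMeasurable, lintegral_J hK hH]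

/-- Quadratic control of the phase. -/
theorem phase_bound (hK : IsBody K) (hH : PosC2 (Hup K)) (R : ℝ) :
    ∃ C : ℝ, 0 < C ∧ ∀ t : V d, ‖t‖ ≤ R → ∀ y : V d, ∀ lam : ℝ, 1 ≤ lam →
      ‖(Kp K).indicator (fun y => Complex.exp (Complex.I * lam *
          ((Hup K t - inner ℝ t y - topf K y : ℝ) : ℂ))) y - 1‖ ≤ C * (lam * ‖y - X (Hup K) t‖ ^ 2) := by
  set H := Hup K with hHdef
  obtain ⟨c, hc, hlow⟩ := exists_lower hH (isCompact_closedBall (0 : V d) (R + 1))
  obtain ⟨C, hC, hupp⟩ := exists_upper hH (isCompact_closedBall (0 : V d) (R + 1))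
  refine ⟨max (C / (2 * c ^ 2)) (8 / c ^ 2), by positivity, ?_⟩
  intro t ht y lam hlam
  have hball : ∀ w : V d, ‖w‖ ≤ 1 → ∀ ξ ∈ Ioo (0 : ℝ) 1, t + ξ • w ∈ Metric.closedBall (0 : V d) (R + 1) := by
    intro w hw ξ hξ
    rw [mem_closedBall_zero_iff]
    calc ‖t + ξ • w‖ ≤ ‖t‖ + ‖ξ • w‖ := norm_add_le _ _
      _ ≤ R + 1 := by
        apply add_le_add ht
        rw [norm_smul, Real.norm_of_nonneg hξ.1.le]
        nlinarith [norm_nonneg w, hξ.1, hξ.2]
  by_cases hy : ‖y - X H t‖ < c / 2
  · -- find t'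
    obtain ⟨t', ht', hmin⟩ := (isCompact_closedBall t 1).exists_isMinOn
      ⟨t, Metric.mem_closedBall_self zero_le_one⟩
      (f := fun s => H s - inner ℝ s y) ((cont_H hH).sub (continuous_id.inner continuous_const)).continuousOn
    rw [Metric.mem_closedBall, dist_eq_norm] at ht'
    have hlt : ‖t' - t‖ < 1 := by
      by_contra hge
      have heq : ‖t' - t‖ = 1 := le_antisymm ht' (not_lt.mp hge)
      obtain ⟨ξ, hξ, h1⟩ := taylor2 hH t (t' - t)
      have h2 := hlow _ (hball (t' - t) ht' ξ hξ) (t' - t)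
      rw [add_sub_cancel, ← inner_X] at h1
      rw [heq] at h2
      have h3 : H t' - inner ℝ t' y ≤ H t - inner ℝ t y := hmin (Metric.mem_closedBall_self zero_le_one)
      have h4 : |inner ℝ (y - X H t) (t' - t)| ≤ ‖y - X H t‖ * ‖t' - t‖ := abs_real_inner_le_norm _ _
      rw [heq, mul_one] at h4
      have h5 : inner ℝ (y - X H t) (t' - t) = inner ℝ t' y - inner ℝ t y - inner ℝ (X H t) (t' - t) := by
        rw [inner_sub_left, inner_sub_right y, real_inner_comm t', real_inner_comm t]
      have h6 := (abs_le.mp h4).2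
      linarith
    have hX : y = X H t' := by
      apply eq_X_of_local_min hH
      apply hmin.isLocalMin
      apply Metric.closedBall_mem_nhds_of_mem
      rw [Metric.mem_ball, dist_eq_norm]
      exact hlt
    have hyK : y ∈ Kp K := by rw [hX]; exact X_mem_Kp hK hH t'
    rw [indicator_of_mem hyK]
    have htop : topf K y = H t' - inner ℝ t' y := by
      rw [hX]; exact topf_X hK hH t'
    -- bounds
    have hw : ‖t - t'‖ < 1 := by rw [norm_sub_rev]; exact hlt
    have hball' : ∀ ξ ∈ Ioo (0 : ℝ) 1, t' + ξ • (t - t') ∈ Metric.closedBall (0 : V d) (R + 1) := by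
      intro ξ hξ
      have h1 := hball (t' - t) hlt.le (1 - ξ) ⟨by linarith [hξ.2], by linarith [hξ.1]⟩
      have h2 : t + (1 - ξ) • (t' - t) = t' + ξ • (t - t') := by
        rw [sub_smul, one_smul, ← neg_sub t t', smul_neg]; abel
      rwa [h2] at h1
    obtain ⟨ξ, hξ, h1⟩ := taylor2 hH t' (t - t')
    have h2 := hupp _ (hball' ξ hξ) (t - t')
    rw [add_sub_cancel, ← inner_X, ← hX] at h1
    have hg : H t - inner ℝ t y - topf K y ≤ C / 2 * ‖t - t'‖ ^ 2 := by
      rw [htop]
      have h5 : inner ℝ y (t - t') = inner ℝ t y - inner ℝ t' y := by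
        rw [inner_sub_right, real_inner_comm t, real_inner_comm t']
      rw [h5] at h1
      linarith
    have hg0 : 0 ≤ H t - inner ℝ t y - topf K y := by
      have := topf_le hK hyK t
      linarith
    obtain ⟨η, hη, h3⟩ := mvt_fderiv hH t' (t - t')
    have h4 := hlow _ (hball' η hη) (t - t')
    rw [add_sub_cancel, ← inner_X, ← inner_X, ← hX, ← inner_sub_left] at h3
    have h5 : inner ℝ (X H t - y) (t - t') ≤ ‖X H t - y‖ * ‖t - t'‖ := real_inner_le_norm _ _
    have h6 : c * ‖t - t'‖ ≤ ‖y - X H t‖ := by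
      rw [norm_sub_rev y]
      by_cases h0 : ‖t - t'‖ = 0
      · rw [h0]; simp
      · have hp : 0 < ‖t - t'‖ := lt_of_le_of_ne (norm_nonneg _) (Ne.symm h0)
        have : c * ‖t - t'‖ * ‖t - t'‖ ≤ ‖X H t - y‖ * ‖t - t'‖ := by nlinarith
        exact le_of_mul_le_mul_right this hp
    have h7 : H t - inner ℝ t y - topf K y ≤ C / (2 * c ^ 2) * ‖y - X H t‖ ^ 2 := by
      apply hg.trans
      have : (c * ‖t - t'‖) ^ 2 ≤ ‖y - X H t‖ ^ 2 := pow_le_pow_left₀ (by positivity) h6 2
      rw [mul_pow] at this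
      calc C / 2 * ‖t - t'‖ ^ 2 = C / (2 * c ^ 2) * (c ^ 2 * ‖t - t'‖ ^ 2) := by field_simp
        _ ≤ _ := by gcongr
    have h8 : ‖Complex.exp (Complex.I * lam * ((H t - inner ℝ t y - topf K y : ℝ) : ℂ)) - 1‖ ≤
        lam * (H t - inner ℝ t y - topf K y) := by
      have := Real.norm_exp_I_mul_ofReal_sub_one_le (x := lam * (H t - inner ℝ t y - topf K y))
      rw [Real.norm_of_nonneg (by positivity)] at this
      have e1 : Complex.I * lam * ((H t - inner ℝ t y - topf K y : ℝ) : ℂ) =
          Complex.I * ((lam * (H t - inner ℝ t y - topf K y) : ℝ) : ℂ) := by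
        push_cast; ring
      rw [e1]
      exact this
    apply h8.trans
    calc lam * (H t - inner ℝ t y - topf K y) ≤ lam * (C / (2 * c ^ 2) * ‖y - X H t‖ ^ 2) := by gcongr
      _ = C / (2 * c ^ 2) * (lam * ‖y - X H t‖ ^ 2) := by ring
      _ ≤ _ := by gcongr; exact le_max_left _ _
  · push Not at hy
    have h1 : ‖(Kp K).indicator (fun y => Complex.exp (Complex.I * lam *
          ((H t - inner ℝ t y - topf K y : ℝ) : ℂ))) y - 1‖ ≤ 2 := by
      have h2 : ‖(Kp K).indicator (fun y => Complex.exp (Complex.I * lam *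
          ((H t - inner ℝ t y - topf K y : ℝ) : ℂ))) y‖ ≤ 1 := by
        by_cases hy' : y ∈ Kp K
        · rw [indicator_of_mem hy', Complex.norm_exp]; simp
        · rw [indicator_of_notMem hy']; simp
      calc _ ≤ _ := norm_sub_le _ _
        _ ≤ 2 := by rw [norm_one]; linarith
    apply h1.trans
    have h3 : (c / 2) ^ 2 ≤ ‖y - X H t‖ ^ 2 := pow_le_pow_left₀ (by positivity) hy 2
    calc (2 : ℝ) = 8 / c ^ 2 * (c / 2) ^ 2 := by field_simp; norm_num
      _ ≤ 8 / c ^ 2 * ‖y - X H t‖ ^ 2 := by gcongr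
      _ ≤ 8 / c ^ 2 * (lam * ‖y - X H t‖ ^ 2) := by
        gcongr
        nlinarith [sq_nonneg ‖y - X H t‖]
      _ ≤ _ := by gcongr; exact le_max_right _ _

end

end Pool.Agent.Helper28.Cov
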